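import Mathlib
import Pool.Agent.Lib.P4a7640Y.Par

/-!
# Parameters depending on a rate function
-/

open Filter MeasureTheory

namespace Pool.Agent.Lib.P4a7640Z

open Pool.Agent.Lib.P4a7640 Pool.Agent.Lib.P4a7640M Pool.Agent.Lib.P4a7640Y

/-- upper end of the window of primes -/
noncomputable def zs (s : ℕ → ℝ) (N : ℕ) : ℝ := Real.exp (Real.log N * Real.exp (-(3 * s N)))

/-- `p` lies in the window of primes -/
def InS (s : ℕ → ℝ) (N p : ℕ) : Prop := p.Prime ∧ Real.log N < p ∧ (p : ℝ) ≤ zs s N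

open Classical in
/-- the primes in the window -/
noncomputable def DS (s : ℕ → ℝ) (N : ℕ) : Finset ℕ := (Finset.Icc 1 N).filter (fun p => InS s N p)

/-- the left end of the window of integers -/
noncomputable def MS (s : ℕ → ℝ) (N : ℕ) : ℕ := ⌈Real.exp (Real.log N * Real.exp (-(2 * s N)))⌉₊

/-- the number of cells in the decoupling -/
noncomputable def QS (s : ℕ → ℝ) (N : ℕ) : ℕ := ⌈Real.exp (5 * s N)⌉₊

/-- the weighted mass of the primes up to `N` -/
noncomputable def mass (δ : ℕ → ℝ) (N : ℕ) : ℝ := ∑ p ∈ (Finset.Icc 1 N).filter Nat.Prime, δ p / p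

end Pool.Agent.Lib.P4a7640Z
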