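import Mathlib
import Pool.Agent.Lib.P4a7640.AS
import Pool.Agent.Lib.P4a7640M.MetricAE
import Pool.Agent.Lib.P4a7640L.MertensB
import Pool.Agent.Lib.P4a7640Y.AE
import Pool.Agent.Lib.P4a7640Z.Par

/-!
# From the second moment bound to a rate for almost every real number

Borel-Cantelli over the scales `exp exp (i + j / J_i)`, `j ≤ J_i`, where `J_i` is about `exp s_i`.
-/

open MeasureTheory Filter Topology

namespace Pool.Agent.Lib.P4a7640Z

open Pool.Agent.Lib.P4a7640 Pool.Agent.Lib.P4a7640M Pool.Agent.Lib.P4a7640Y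

namespace AESAux

/-- the scales -/
noncomputable def Ms (x : ℝ) : ℕ := ⌈Real.exp (Real.exp x)⌉₊

lemma Ms_mono {x y : ℝ} (h : x ≤ y) : Ms x ≤ Ms y :=
  Nat.ceil_mono (Real.exp_le_exp.2 (Real.exp_le_exp.2 h))

lemma le_Ms (x : ℝ) : Real.exp (Real.exp x) ≤ Ms x := Nat.le_ceil _

lemma three_le_Ms {x : ℝ} (hx : 0 ≤ x) : 3 ≤ Ms x := by
  have h1 : (2:ℝ) < Real.exp (Real.exp x) := by
    have h2 : 1 ≤ Real.exp x := Real.one_le_exp hx
    have h3 : Real.exp 1 ≤ Real.exp (Real.exp x) := Real.exp_le_exp.2 h2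
    have := Real.exp_one_gt_d9
    linarith
  have h4 : 2 < Ms x := Nat.lt_ceil.2 (by exact_mod_cast h1)
  omega

lemma log_Ms_ge (x : ℝ) : Real.exp x ≤ Real.log (Ms x) := by
  have h1 := le_Ms x
  rw [Real.le_log_iff_exp_le (lt_of_lt_of_le (Real.exp_pos _) h1)]
  exact h1

lemma lam_Ms_ge (x : ℝ) : x ≤ lam (Ms x) := by
  have h1 := log_Ms_ge x
  unfold lam
  rw [Real.le_log_iff_exp_le (lt_of_lt_of_le (Real.exp_pos _) h1)]
  exact h1

lemma tendsto_Ms : Tendsto (fun i : ℕ => Ms (i:ℝ)) atTop atTop := by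
  unfold Ms
  exact tendsto_nat_ceil_atTop.comp (Real.tendsto_exp_atTop.comp
    (Real.tendsto_exp_atTop.comp tendsto_natCast_atTop_atTop))

lemma mass_mono {δ : ℕ → ℝ} (h0 : ∀ p, 0 ≤ δ p) {M N : ℕ} (h : M ≤ N) : mass δ M ≤ mass δ N := by
  unfold mass
  refine Finset.sum_le_sum_of_subset_of_nonneg ?_ fun p _ _ => div_nonneg (h0 p) (Nat.cast_nonneg p)
  exact Finset.filter_subset_filter _ (Finset.Icc_subset_Icc le_rfl h)

lemma mass_nonneg {δ : ℕ → ℝ} (h0 : ∀ p, 0 ≤ δ p) (N : ℕ) : 0 ≤ mass δ N :=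
  Finset.sum_nonneg fun p _ => div_nonneg (h0 p) (Nat.cast_nonneg p)

/-- the mass grows by a bounded amount if `lam` grows by at most one -/
lemma mass_block {δ : ℕ → ℝ} (h0 : ∀ p, 0 ≤ δ p) (h1 : ∀ p, δ p ≤ 1) : ∃ C : ℝ, 0 ≤ C ∧
    ∀ M N : ℕ, 3 ≤ M → M ≤ N → lam N ≤ lam M + 1 → mass δ N ≤ mass δ M + C := by
  obtain ⟨C, hC0, hC⟩ := P4a7640L.mertens_upper
  refine ⟨1 + C, by positivity, fun M N hM hMN hlam => ?_⟩
  have hM0 : (3:ℝ) ≤ M := by exact_mod_cast hM
  have hN0 : (3:ℝ) ≤ N := hM0.trans (by exact_mod_cast hMN)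
  have hlogM : 1 ≤ Real.log M := by
    rw [Real.le_log_iff_exp_le (by linarith)]
    have := Real.exp_one_lt_d9
    linarith
  have hlogMN : Real.log M ≤ Real.log N := Real.log_le_log (by linarith) (by exact_mod_cast hMN)
  have hlamM : 0 ≤ lam M := Real.log_nonneg hlogM
  have hlamMN : lam M ≤ lam N := Real.log_le_log (by linarith) hlogMN
  have hsub : (Finset.Icc 1 N).filter Nat.Prime ⊆
      (Finset.Icc 1 M).filter Nat.Prime ∪ (Finset.Ioc M N).filter Nat.Prime := by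
    intro p hp
    rw [Finset.mem_union, Finset.mem_filter, Finset.mem_filter, Finset.mem_Icc, Finset.mem_Ioc]
    rw [Finset.mem_filter, Finset.mem_Icc] at hp
    rcases le_or_gt p M with h | h
    · exact Or.inl ⟨⟨hp.1.1, h⟩, hp.2⟩
    · exact Or.inr ⟨⟨h, hp.1.2⟩, hp.2⟩
  have hδ : ∀ p : ℕ, 0 ≤ δ p / p := fun p => div_nonneg (h0 p) (Nat.cast_nonneg p)
  have e1 : mass δ N ≤ mass δ M + ∑ p ∈ (Finset.Ioc M N).filter Nat.Prime, (1:ℝ) / p := by
    unfold mass
    refine (Finset.sum_le_sum_of_subset_of_nonneg hsub fun p _ _ => hδ p).trans ?_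
    rw [Finset.sum_union]
    · gcongr with p _
      exact h1 p
    · rw [Finset.disjoint_left]
      intro p hp hp'
      rw [Finset.mem_filter, Finset.mem_Icc] at hp
      rw [Finset.mem_filter, Finset.mem_Ioc] at hp'
      omega
  have e2 : ∑ p ∈ (Finset.Ioc M N).filter Nat.Prime, (1:ℝ) / p ≤
      (lam N - lam M) + C * Real.exp (-lam M) := by
    refine hC (lam M) (lam N) hlamM hlamMN _ fun p hp => ?_
    rw [Finset.mem_filter, Finset.mem_Ioc] at hp
    obtain ⟨⟨hp1, hp2⟩, hpp⟩ := hp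
    have hp1' : (M:ℝ) ≤ p := by exact_mod_cast hp1.le
    have hp2' : (p:ℝ) ≤ N := by exact_mod_cast hp2
    have a1 : Real.log M ≤ Real.log p := Real.log_le_log (by linarith) hp1'
    have a2 : Real.log p ≤ Real.log N := Real.log_le_log (by linarith) hp2'
    exact ⟨hpp, Real.log_le_log (by linarith) a1, Real.log_le_log (by linarith) a2⟩
  have e3 : C * Real.exp (-lam M) ≤ C := by
    have : Real.exp (-lam M) ≤ 1 := Real.exp_le_one_iff.2 (by linarith)
    nlinarith
  linarith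

/-- the interpolation -/
lemma FF_step {w : ℕ → ℝ} (hw : ∀ n, |w n| ≤ 1) (H : Finset ℕ) (x : SS) {A N : ℕ} (hA : 2 ≤ A)
    (hAN : A ≤ N) : |FF w H N x| ≤ |FF w H A x| + (Real.log N / Real.log A - 1) := by
  have h1 : ∀ N, FF w H N x = LA (fun n => w n * ∏ h ∈ H, sg (rnd x (n + h))) N := by
    intro N
    unfold FF LA
    congr 1
    refine Finset.sum_congr rfl fun n _ => ?_
    ring
  rw [h1, h1]
  refine LA_step (fun n => ?_) hA hAN le_rfl
  rw [abs_mul, Finset.abs_prod, Finset.prod_congr rfl fun h _ => abs_sg _, Finset.prod_const_one,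
    mul_one]
  exact hw n

/-- the ratio of the logarithms -/
lemma ratio_le {x y : ℝ} {J N : ℕ} (hJ : 1 ≤ J) (hN : 0 < N)
    (hNy : (N:ℝ) < Real.exp (Real.exp y)) (hy : y ≤ x + 1 / J) :
    Real.log N / Real.log (Ms x) - 1 ≤ 2 / J := by
  have hN0 : (0:ℝ) < N := by exact_mod_cast hN
  have hJ0 : (0:ℝ) < J := by exact_mod_cast hJ
  have hJ1 : (1:ℝ) ≤ J := by exact_mod_cast hJ
  have h1 := log_Ms_ge x
  have h2 : 0 < Real.exp x := Real.exp_pos x
  have h3 : Real.log N ≤ Real.exp y := by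
    rw [Real.log_le_iff_le_exp hN0]
    exact hNy.le
  have h4 : Real.exp y ≤ Real.exp x * Real.exp (1 / J) := by
    rw [← Real.exp_add]
    exact Real.exp_le_exp.2 hy
  have h5 : Real.exp (1 / (J:ℝ)) ≤ 1 + 2 / J := by
    have h6 : (1:ℝ) / J ≤ 1 := by rwa [div_le_one hJ0]
    have h7 : (0:ℝ) ≤ 1 / J := by positivity
    have h8 := Real.abs_exp_sub_one_le (x := 1 / (J:ℝ)) (by rwa [abs_of_nonneg h7])
    rw [abs_of_nonneg h7] at h8
    have h9 := le_abs_self (Real.exp (1 / (J:ℝ)) - 1)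
    have h10 : 2 * (1 / (J:ℝ)) = 2 / J := by ring
    linarith
  rw [sub_le_iff_le_add, div_le_iff₀ (lt_of_lt_of_le h2 h1)]
  calc Real.log N ≤ Real.exp x * Real.exp (1 / J) := h3.trans h4
    _ ≤ Real.log (Ms x) * (1 + 2 / J) :=
        mul_le_mul h1 h5 (Real.exp_pos _).le (h2.le.trans h1)
    _ = (2 / J + 1) * Real.log (Ms x) := by ring

end AESAux

open AESAux

/-- General form: Borel-Cantelli over the scales `exp exp (i + j / J_i)`, `j ≤ J_i ≈ exp (s_i)`, for
any measurable family of signs. -/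
theorem ae_g {X : ℝ → SS} (hX : Measurable X) {δ : ℕ → ℝ}
    (h0 : ∀ p, 0 ≤ δ p) (h1 : ∀ p, δ p ≤ 1)
    (hP : Tendsto (fun N : ℕ => mass δ N / Real.log (lam N) ^ 2) atTop atTop)
    (hm : ∀ H : Finset ℕ, H.Nonempty → ∃ c : ℝ, 0 < c ∧ ∃ B : ℝ, 0 < B ∧ ∀ᶠ N : ℕ in atTop,
      ∀ w : ℕ → ℝ, (∀ n, |w n| ≤ 1) → ∀ u : ℝ,
        ∫ α in u..(u + 1), FF w H N (X α) ^ 2 ≤ B * Real.exp (-(4 * c * Real.sqrt (mass δ N))))
    {w : ℕ → ℝ} (hw : ∀ n, |w n| ≤ 1) {H : Finset ℕ} (hH : H.Nonempty) :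
    ∃ c : ℝ, 0 < c ∧ ∀ᵐ α : ℝ, ∀ᶠ N : ℕ in atTop,
      |FF w H N (X α)| ≤ Real.exp (-(c * Real.sqrt (mass δ N))) := by
  classical
  obtain ⟨c, hc, B, hB, hev⟩ := hm H hH
  obtain ⟨C, hC0, hC⟩ := mass_block h0 h1
  -- the rate at the beginning of a block
  set s : ℕ → ℝ := fun i => c * Real.sqrt (mass δ (Ms i)) with hs
  have hs0 : ∀ i, 0 ≤ s i := fun i => mul_nonneg hc.le (Real.sqrt_nonneg _)
  have hslog : ∀ᶠ i : ℕ in atTop, 2 * Real.log i ≤ s i := by
    have e1 := tendsto_Ms.eventually (hP.eventually_ge_atTop ((2 / c) ^ 2))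
    filter_upwards [e1, eventually_ge_atTop 2] with i hi hi2
    have hi2' : (2:ℝ) ≤ i := by exact_mod_cast hi2
    have hlam : (i:ℝ) ≤ lam (Ms i) := lam_Ms_ge i
    have hlog0 : 0 < Real.log i := Real.log_pos (by linarith)
    have hlog : Real.log i ≤ Real.log (lam (Ms i)) := Real.log_le_log (by linarith) hlam
    have hL : 0 < Real.log (lam (Ms i)) := lt_of_lt_of_le hlog0 hlog
    rw [le_div_iff₀ (by positivity)] at hi
    have e2 : 2 / c * Real.log (lam (Ms i)) ≤ Real.sqrt (mass δ (Ms i)) := by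
      apply Real.le_sqrt_of_sq_le
      rw [mul_pow]
      exact hi
    calc 2 * Real.log i ≤ 2 * Real.log (lam (Ms i)) := by linarith
      _ = c * (2 / c * Real.log (lam (Ms i))) := by field_simp
      _ ≤ s i := mul_le_mul_of_nonneg_left e2 hc.le
  -- the number of scales in a block
  set J : ℕ → ℕ := fun i => ⌈Real.exp (s i)⌉₊ with hJ
  have hJ1 : ∀ i, 1 ≤ J i := fun i => Nat.one_le_ceil_iff.2 (Real.exp_pos _)
  have hJge : ∀ i, Real.exp (s i) ≤ J i := fun i => Nat.le_ceil _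
  have hJle : ∀ i, (J i : ℝ) ≤ Real.exp (s i) + 1 := fun i =>
    (Nat.ceil_lt_add_one (Real.exp_pos _).le).le
  -- the square function of a block
  set f : ℕ → ℝ → ℝ := fun i α => Real.sqrt (∑ j ∈ Finset.range (J i + 1),
    (Real.exp (s i) * FF w H (Ms (i + j / J i)) (X α)) ^ 2) with hf
  have hfsq : ∀ i α, f i α ^ 2 = ∑ j ∈ Finset.range (J i + 1),
      (Real.exp (s i) * FF w H (Ms (i + j / J i)) (X α)) ^ 2 := fun i α =>
    Real.sq_sqrt (Finset.sum_nonneg fun j _ => sq_nonneg _)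
  have hFm : ∀ N, Measurable fun α => FF w H N (X α) := fun N =>
    (measurable_FF w H N).comp hX
  have hfm : ∀ i, Measurable (f i) := by
    intro i
    refine Measurable.sqrt (Finset.measurable_sum _ fun j _ => ?_)
    exact ((hFm _).const_mul _).pow_const 2
  have hpos : ∀ (i j : ℕ), (0:ℝ) ≤ (i:ℝ) + j / J i := fun i j => by positivity
  have hFb : ∀ (i j : ℕ) (α : ℝ), |FF w H (Ms (i + j / J i)) (X α)| ≤ 2 := by
    intro i j α
    have e1 := three_le_Ms (hpos i j)
    have e2 := FF_bound hw H (N := Ms (i + j / J i)) (by omega) (X α)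
    have e3 : 1 ≤ Real.log (Ms (i + j / J i)) :=
      (Real.one_le_exp (hpos i j)).trans (log_Ms_ge _)
    have e4 : 1 / Real.log (Ms (i + j / J i)) ≤ 1 := by
      rw [div_le_one (by linarith)]
      exact e3
    linarith
  have hfb : ∀ i α, |f i α| ≤ Real.sqrt (∑ j ∈ Finset.range (J i + 1), (Real.exp (s i) * 2) ^ 2) := by
    intro i α
    rw [abs_of_nonneg (Real.sqrt_nonneg _)]
    refine Real.sqrt_le_sqrt (Finset.sum_le_sum fun j _ => ?_)
    rw [← sq_abs, abs_mul, abs_of_pos (Real.exp_pos _)]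
    have := hFb i j α
    gcongr
  obtain ⟨N₀, hN₀⟩ := eventually_atTop.1 hev
  obtain ⟨i₀, hi₀⟩ := eventually_atTop.1 ((tendsto_Ms.eventually_ge_atTop N₀).and
    (hslog.and (eventually_ge_atTop 1)))
  have hint : ∀ u : ℝ, ∀ i : ℕ, i₀ ≤ i → ∫ α in u..(u + 1), f i α ^ 2 ≤ 3 * B / (i:ℝ) ^ 2 := by
    intro u i hi
    obtain ⟨hiN, hilog, hi1⟩ := hi₀ i hi
    have hi0 : (0:ℝ) < i := by exact_mod_cast hi1
    have e0 : ∀ j : ℕ, Ms (i:ℝ) ≤ Ms (i + j / J i) := fun j =>
      Ms_mono (le_add_of_nonneg_right (by positivity))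
    have e1 : ∀ j ∈ Finset.range (J i + 1), ∫ α in u..(u + 1),
        (Real.exp (s i) * FF w H (Ms (i + j / J i)) (X α)) ^ 2 ≤
          B * Real.exp (-(2 * s i)) := by
      intro j _
      have e2 := hN₀ (Ms (i + j / J i)) (hiN.trans (e0 j)) w hw u
      have e3 : Real.sqrt (mass δ (Ms i)) ≤ Real.sqrt (mass δ (Ms (i + j / J i))) :=
        Real.sqrt_le_sqrt (mass_mono h0 (e0 j))
      have e4 : Real.exp (-(4 * c * Real.sqrt (mass δ (Ms (i + j / J i))))) ≤
          Real.exp (-(4 * s i)) := by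
        refine Real.exp_le_exp.2 ?_
        have : c * Real.sqrt (mass δ (Ms i)) ≤ c * Real.sqrt (mass δ (Ms (i + j / J i))) :=
          mul_le_mul_of_nonneg_left e3 hc.le
        simp only [hs]
        linarith
      have e5 : ∀ α, (Real.exp (s i) * FF w H (Ms (i + j / J i)) (X α)) ^ 2 =
          Real.exp (2 * s i) * FF w H (Ms (i + j / J i)) (X α) ^ 2 := by
        intro α
        rw [mul_pow, ← Real.exp_nat_mul]
        norm_num
      simp only [e5]
      rw [intervalIntegral.integral_const_mul]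
      calc Real.exp (2 * s i) * ∫ α in u..(u + 1), FF w H (Ms (i + j / J i)) (X α) ^ 2
          ≤ Real.exp (2 * s i) * (B * Real.exp (-(4 * s i))) := by
            refine mul_le_mul_of_nonneg_left (e2.trans ?_) (Real.exp_pos _).le
            exact mul_le_mul_of_nonneg_left e4 hB.le
        _ = B * Real.exp (-(2 * s i)) := by
            rw [mul_left_comm, ← Real.exp_add]
            congr 2
            ring
    have e6 : ∀ j ∈ Finset.range (J i + 1), IntervalIntegrable (fun α =>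
        (Real.exp (s i) * FF w H (Ms (i + j / J i)) (X α)) ^ 2) volume u (u + 1) := by
      intro j _
      rw [intervalIntegrable_iff_integrableOn_Ioc_of_le (by linarith)]
      refine Integrable.of_bound (((hFm _).const_mul _).pow_const 2).aestronglyMeasurable
        ((Real.exp (s i) * 2) ^ 2) (Eventually.of_forall fun α => ?_)
      rw [Real.norm_eq_abs, abs_pow, abs_mul, abs_of_pos (Real.exp_pos _)]
      have := hFb i j α
      gcongr
    simp only [hfsq]
    rw [intervalIntegral.integral_finsetSum e6]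
    calc ∑ j ∈ Finset.range (J i + 1), ∫ α in u..(u + 1),
        (Real.exp (s i) * FF w H (Ms (i + j / J i)) (X α)) ^ 2
        ≤ ∑ j ∈ Finset.range (J i + 1), B * Real.exp (-(2 * s i)) := Finset.sum_le_sum e1
      _ = (J i + 1) * (B * Real.exp (-(2 * s i))) := by
          rw [Finset.sum_const, Finset.card_range, nsmul_eq_mul]
          push_cast
          ring
      _ ≤ (3 * Real.exp (s i)) * (B * Real.exp (-(2 * s i))) := by
          refine mul_le_mul_of_nonneg_right ?_ (by positivity)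
          have e7 := hJle i
          have e8 : 1 ≤ Real.exp (s i) := Real.one_le_exp (hs0 i)
          linarith
      _ = 3 * B * Real.exp (-s i) := by
          have e9 : Real.exp (s i) * Real.exp (-(2 * s i)) = Real.exp (-s i) := by
            rw [← Real.exp_add]
            congr 1
            ring
          calc _ = 3 * B * (Real.exp (s i) * Real.exp (-(2 * s i))) := by ring
            _ = _ := by rw [e9]
      _ ≤ 3 * B / (i:ℝ) ^ 2 := by
          rw [div_eq_mul_inv]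
          refine mul_le_mul_of_nonneg_left ?_ (by positivity)
          calc Real.exp (-s i) ≤ Real.exp (-(2 * Real.log i)) := Real.exp_le_exp.2 (by linarith)
            _ = ((i:ℝ) ^ 2)⁻¹ := by
                rw [Real.exp_neg, mul_comm, Real.exp_mul, Real.exp_log hi0]
                norm_num
  -- almost everywhere on unit intervals
  have hall : ∀ j : ℤ, ∀ᵐ α ∂((volume : Measure ℝ).restrict (Set.Ioc (j:ℝ) (j + 1))),
      Tendsto (fun k => f k α) atTop (𝓝 0) := fun j =>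
    ae_restrict_tendsto hfm hfb (by positivity) fun k hk => hint j k hk
  have hall2 := (ae_restrict_iUnion_iff (μ := (volume : Measure ℝ))
    (fun j : ℤ => Set.Ioc (j:ℝ) (j + 1)) (fun α => Tendsto (fun k => f k α) atTop (𝓝 0))).mpr hall
  rw [iUnion_Ioc_intCast, Measure.restrict_univ] at hall2
  -- the rate tends to infinity
  have hsinf : Tendsto s atTop atTop := by
    refine tendsto_atTop_mono' atTop hslog ?_
    exact (Real.tendsto_log_atTop.comp tendsto_natCast_atTop_atTop).const_mul_atTop two_pos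
  refine ⟨c / 2, by positivity, ?_⟩
  filter_upwards [hall2] with α hα
  have hα1 : ∀ᶠ i : ℕ in atTop, f i α < 1 := (tendsto_order.1 hα).2 1 one_pos
  obtain ⟨i₁, hi₁⟩ := eventually_atTop.1 ((hα1.and
    (hsinf.eventually_ge_atTop (c * Real.sqrt C + 2 * Real.log 3))).and (eventually_ge_atTop i₀))
  have hlamt : Tendsto (fun N : ℕ => lam N) atTop atTop := by
    unfold lam
    exact Real.tendsto_log_atTop.comp (Real.tendsto_log_atTop.comp tendsto_natCast_atTop_atTop)
  filter_upwards [hlamt.eventually_ge_atTop ((i₁:ℝ) + 1), eventually_ge_atTop 3] with N hN hN3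
  have hN0 : (3:ℝ) ≤ N := by exact_mod_cast hN3
  have hlam0 : 0 ≤ lam N := by
    have : (0:ℝ) ≤ i₁ := Nat.cast_nonneg _
    linarith
  have hNexp : Real.exp (Real.exp (lam N)) = N := by
    have e1 : 0 < Real.log N := Real.log_pos (by linarith)
    unfold lam
    rw [Real.exp_log e1, Real.exp_log (by linarith)]
  -- the block of `N`
  set i : ℕ := ⌊lam N⌋₊ with hi
  have hile : (i:ℝ) ≤ lam N := Nat.floor_le hlam0
  have hilt : lam N < i + 1 := Nat.lt_floor_add_one _
  have hi1 : i₁ ≤ i := Nat.le_floor (by linarith)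
  obtain ⟨⟨hfi, hsi⟩, hi0⟩ := hi₁ i hi1
  have hJ0 : (0:ℝ) < J i := by exact_mod_cast hJ1 i
  set j : ℕ := ⌊(lam N - i) * J i⌋₊ with hj
  have ht0 : 0 ≤ (lam N - i) * J i := mul_nonneg (by linarith) hJ0.le
  have hjle : (j:ℝ) ≤ (lam N - i) * J i := Nat.floor_le ht0
  have hjlt : (lam N - i) * J i < j + 1 := Nat.lt_floor_add_one _
  have hjJ : j < J i := by
    have : (j:ℝ) < J i := by
      refine lt_of_le_of_lt hjle ?_
      nlinarith
    exact_mod_cast this
  have hx : (i:ℝ) + j / J i ≤ lam N := by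
    have : (j:ℝ) / J i ≤ lam N - i := by rwa [div_le_iff₀ hJ0]
    linarith
  have hMN : Ms (i + j / J i) ≤ N := by
    unfold Ms
    rw [Nat.ceil_le]
    calc Real.exp (Real.exp ((i:ℝ) + j / J i)) ≤ Real.exp (Real.exp (lam N)) :=
          Real.exp_le_exp.2 (Real.exp_le_exp.2 hx)
      _ = N := hNexp
  have hM3 : 3 ≤ Ms ((i:ℝ) + j / J i) := three_le_Ms (hpos i j)
  -- the value at the scale
  have hval : |FF w H (Ms (i + j / J i)) (X α)| ≤ Real.exp (-s i) := by
    have e1 : (Real.exp (s i) * FF w H (Ms (i + j / J i)) (X α)) ^ 2 ≤ f i α ^ 2 := by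
      rw [hfsq]
      exact Finset.single_le_sum (f := fun j : ℕ =>
        (Real.exp (s i) * FF w H (Ms (i + j / J i)) (X α)) ^ 2) (fun j _ => sq_nonneg _)
        (Finset.mem_range.2 (by omega))
    have e2 : |Real.exp (s i) * FF w H (Ms (i + j / J i)) (X α)| ≤ 1 := by
      have e3 : 0 ≤ f i α := Real.sqrt_nonneg _
      rw [← abs_of_nonneg e3] at hfi
      exact (sq_le_sq.1 e1).trans hfi.le
    rw [abs_mul, abs_of_pos (Real.exp_pos _)] at e2
    rw [Real.exp_neg, ← one_div, le_div_iff₀ (Real.exp_pos _)]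
    linarith
  -- the interpolation
  have hstep := FF_step hw H (X α) (A := Ms (i + j / J i)) (by omega) hMN
  have hratio : Real.log N / Real.log (Ms (i + j / J i)) - 1 ≤ 2 / J i := by
    have hy : lam N < (i:ℝ) + j / J i + 1 / J i := by
      have : lam N - i < (j + 1) / J i := by rwa [lt_div_iff₀ hJ0]
      rw [add_div] at this
      linarith
    refine ratio_le (y := (i:ℝ) + j / J i + 1 / J i) (hJ1 i) (by omega) ?_ le_rfl
    rw [← hNexp]
    exact Real.exp_lt_exp.2 (Real.exp_lt_exp.2 hy)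
  have hJinv : (2:ℝ) / J i ≤ 2 * Real.exp (-s i) := by
    rw [div_le_iff₀ hJ0]
    have e1 := hJge i
    have e2 : Real.exp (-s i) * Real.exp (s i) = 1 := by
      rw [← Real.exp_add]
      simp
    have e3 : 0 < Real.exp (-s i) := Real.exp_pos _
    nlinarith
  have htot : |FF w H N (X α)| ≤ 3 * Real.exp (-s i) := by linarith
  refine htot.trans ?_
  -- the mass
  have hmass : mass δ N ≤ mass δ (Ms i) + C := by
    have e1 : Ms (i:ℝ) ≤ N := (Ms_mono (le_add_of_nonneg_right (by positivity))).trans hMN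
    refine hC (Ms i) N (three_le_Ms (Nat.cast_nonneg i)) e1 ?_
    have := lam_Ms_ge (i:ℝ)
    linarith
  have hsqrt : Real.sqrt (mass δ N) ≤ Real.sqrt (mass δ (Ms i)) + Real.sqrt C := by
    refine (Real.sqrt_le_sqrt hmass).trans ?_
    rw [Real.sqrt_le_left (by positivity)]
    have e1 := Real.sq_sqrt (mass_nonneg h0 (Ms i))
    have e2 := Real.sq_sqrt hC0
    have e3 : 0 ≤ Real.sqrt (mass δ (Ms i)) := Real.sqrt_nonneg _
    have e4 : 0 ≤ Real.sqrt C := Real.sqrt_nonneg _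
    nlinarith [mul_nonneg e3 e4]
  have h3 : (3:ℝ) = Real.exp (Real.log 3) := (Real.exp_log (by norm_num)).symm
  rw [h3, ← Real.exp_add]
  refine Real.exp_le_exp.2 ?_
  have e5 : s i = c * Real.sqrt (mass δ (Ms i)) := rfl
  have e6 : c / 2 * Real.sqrt (mass δ N) ≤ c / 2 * (Real.sqrt (mass δ (Ms i)) + Real.sqrt C) :=
    mul_le_mul_of_nonneg_left hsqrt (by positivity)
  have e7 : c / 2 * (Real.sqrt (mass δ (Ms i)) + Real.sqrt C) = s i / 2 + c * Real.sqrt C / 2 := by
    rw [e5]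
    ring
  linarith

/-- module AES (Borel-Cantelli over the scales `exp exp (i + j / J_i)`, `j ≤ J_i ≈ exp (s_i)`) -/
theorem ae_s {A : ℕ → Set ℝ} {a : ℕ → ℕ} (hA : ∀ p, MeasurableSet (A p)) {δ : ℕ → ℝ}
    (h0 : ∀ p, 0 ≤ δ p) (h1 : ∀ p, δ p ≤ 1)
    (hP : Tendsto (fun N : ℕ => mass δ N / Real.log (lam N) ^ 2) atTop atTop)
    (hm : ∀ H : Finset ℕ, H.Nonempty → ∃ c : ℝ, 0 < c ∧ ∃ B : ℝ, 0 < B ∧ ∀ᶠ N : ℕ in atTop,
      ∀ w : ℕ → ℝ, (∀ n, |w n| ≤ 1) → ∀ u : ℝ,
        ∫ α in u..(u + 1), FF w H N (xg A a α) ^ 2 ≤ B * Real.exp (-(4 * c * Real.sqrt (mass δ N))))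
    {w : ℕ → ℝ} (hw : ∀ n, |w n| ≤ 1) {H : Finset ℕ} (hH : H.Nonempty) :
    ∃ c : ℝ, 0 < c ∧ ∀ᵐ α : ℝ, ∀ᶠ N : ℕ in atTop,
      |FF w H N (xg A a α)| ≤ Real.exp (-(c * Real.sqrt (mass δ N))) :=
  ae_g (measurable_xg hA a) h0 h1 hP hm hw hH

end Pool.Agent.Lib.P4a7640Z
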