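import Mathlib
import Pool.Agent.Lib.P4a7640Z.Par

/-!
# The choice of the parameters, with a rate
-/

open Filter Topology

namespace Pool.Agent.Lib.P4a7640Z

open Pool.Agent.Lib.P4a7640 Pool.Agent.Lib.P4a7640M Pool.Agent.Lib.P4a7640Y

namespace AsymSAux

lemma tendsto_lam' : Tendsto (fun N : ℕ => lam N) atTop atTop :=
  Real.tendsto_log_atTop.comp (Real.tendsto_log_atTop.comp tendsto_natCast_atTop_atTop)

lemma ev_small (C : ℝ) : ∀ᶠ x : ℝ in atTop, C * x ^ 2 * Real.exp (-x / 6) ≤ 1 / 2 := by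
  have h1 := Real.tendsto_pow_mul_exp_neg_atTop_nhds_zero 2
  have h2 : Tendsto (fun x : ℝ => x / 6) atTop atTop := tendsto_id.atTop_div_const (by norm_num)
  have h3 := (h1.comp h2).const_mul (36 * |C|)
  rw [mul_zero] at h3
  filter_upwards [h3.eventually_le_const (show (0:ℝ) < 1 / 2 by norm_num)] with x hx
  simp only [Function.comp_apply] at hx
  have e : Real.exp (-x / 6) = Real.exp (-(x / 6)) := by
    congr 1
    ring
  rw [e]
  calc C * x ^ 2 * Real.exp (-(x / 6)) ≤ |C| * x ^ 2 * Real.exp (-(x / 6)) := by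
        gcongr
        exact le_abs_self C
    _ = 36 * |C| * ((x / 6) ^ 2 * Real.exp (-(x / 6))) := by ring
    _ ≤ 1 / 2 := hx

end AsymSAux

open AsymSAux

/-- The choice of the parameters. -/
theorem asym_s {K C k : ℝ} (hK : 0 < K) (hC : 0 < C) (hk : 0 ≤ k) : ∃ K₁ : ℝ, 0 < K₁ ∧
    ∃ K₂ : ℝ, 0 < K₂ ∧ ∀ s : ℕ → ℝ, (∀ᶠ N : ℕ in atTop, 2 * Real.log (lam N) ≤ s N) →
    (∀ᶠ N : ℕ in atTop, K₂ * s N ^ 2 ≤ lam N) →
    ∀ᶠ N : ℕ in atTop, ∀ Y V : ℝ, K₁ * s N ^ 2 ≤ Y →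
      V ≤ (Real.exp (-Y / 2) + Real.exp (-lam N)) ^ 2 +
        4 * (C * (2 * lam N) * (k * (RN N : ℝ) ^ 2 / Real.log N + 2 * lam N / RN N)) / Y ^ 2 →
      ∀ j : ℕ, (j:ℝ) ≤ 2 * K * s N →
        (QS s N : ℝ) ^ (2 * j) * V * Real.exp (12 * s N) ≤ Real.exp (-(4 * s N)) := by
  set C₃ := 2 + 8 * C * (4 * k + 2) with hC₃
  refine ⟨24 * K + 17, by positivity, 6 * (24 * K + 16), by positivity, fun s hs1 hs2 => ?_⟩
  have hlog : ∀ᶠ N : ℕ in atTop, 1 ≤ Real.log (lam N) :=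
    tendsto_lam'.eventually (Real.tendsto_log_atTop.eventually_ge_atTop 1)
  filter_upwards [tendsto_lam'.eventually (ev_small C₃), hs1, hs2, hlog,
    tendsto_lam'.eventually_ge_atTop 2, eventually_ge_atTop 3] with N h1 hsl hsx hlg hx2 hN Y V hY hV j hj
  set x := lam N with hx
  set u := s N with hu
  have hx0 : 0 < x := by linarith
  have hlogN : 0 < Real.log N := Real.log_pos (by exact_mod_cast (show 1 < N by omega))
  have hL : Real.log N = Real.exp x := by
    rw [hx, lam, Real.exp_log hlogN]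
  have h2 : 2 ≤ u := by linarith
  -- `Y ≥ 1`
  have hu4 : 4 ≤ u ^ 2 := by nlinarith
  have hY1 : 1 ≤ Y := by nlinarith [mul_pos hK (by linarith : (0:ℝ) < u ^ 2)]
  -- bounds for `RN`
  have hE0 : 0 < Real.exp (x / 3) := Real.exp_pos _
  have hR1 : Real.exp (x / 3) ≤ RN N := Nat.le_ceil _
  have hR2 : (RN N : ℝ) ≤ 2 * Real.exp (x / 3) := by
    have h3 : (RN N : ℝ) ≤ Real.exp (x / 3) + 1 := (Nat.ceil_lt_add_one hE0.le).le
    have h4 : 1 ≤ Real.exp (x / 3) := Real.one_le_exp (by positivity)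
    linarith
  have hR0 : (0:ℝ) < RN N := hE0.trans_le hR1
  have e1 : (RN N : ℝ) ^ 2 / Real.log N ≤ 4 * Real.exp (-x / 3) := by
    rw [hL, div_le_iff₀ (Real.exp_pos _)]
    calc (RN N : ℝ) ^ 2 ≤ (2 * Real.exp (x / 3)) ^ 2 := pow_le_pow_left₀ hR0.le hR2 2
      _ = 4 * Real.exp (-x / 3) * Real.exp x := by
          rw [mul_pow, ← Real.exp_nat_mul, mul_assoc, ← Real.exp_add]
          norm_num
          ring
  have e2 : 2 * x / RN N ≤ 2 * x * Real.exp (-x / 3) := by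
    rw [div_le_iff₀ hR0]
    have h3 : Real.exp (-x / 3) * Real.exp (x / 3) = 1 := by
      rw [← Real.exp_add]
      simp [neg_div]
    calc 2 * x = 2 * x * (Real.exp (-x / 3) * Real.exp (x / 3)) := by rw [h3, mul_one]
      _ ≤ 2 * x * (Real.exp (-x / 3) * RN N) := by gcongr
      _ = _ := by ring
  have e3 : k * (RN N : ℝ) ^ 2 / Real.log N + 2 * x / RN N ≤ (4 * k + 2) * x * Real.exp (-x / 3) := by
    have h3 : k * (RN N : ℝ) ^ 2 / Real.log N ≤ k * (4 * Real.exp (-x / 3)) := by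
      rw [mul_div_assoc]
      exact mul_le_mul_of_nonneg_left e1 hk
    have h4 : k * (4 * Real.exp (-x / 3)) ≤ 4 * k * x * Real.exp (-x / 3) := by
      have : 0 ≤ 4 * k * Real.exp (-x / 3) := by positivity
      nlinarith
    calc _ ≤ 4 * k * x * Real.exp (-x / 3) + 2 * x * Real.exp (-x / 3) := add_le_add (h3.trans h4) e2
      _ = _ := by ring
  have e4 : 4 * (C * (2 * x) * (k * (RN N : ℝ) ^ 2 / Real.log N + 2 * x / RN N)) / Y ^ 2 ≤
      8 * C * (4 * k + 2) * x ^ 2 * Real.exp (-x / 3) := by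
    have hY2 : (1:ℝ) ≤ Y ^ 2 := by nlinarith
    rw [div_le_iff₀ (by linarith)]
    calc 4 * (C * (2 * x) * (k * (RN N : ℝ) ^ 2 / Real.log N + 2 * x / RN N))
        ≤ 4 * (C * (2 * x) * ((4 * k + 2) * x * Real.exp (-x / 3))) := by gcongr
      _ = 8 * C * (4 * k + 2) * x ^ 2 * Real.exp (-x / 3) * 1 := by ring
      _ ≤ 8 * C * (4 * k + 2) * x ^ 2 * Real.exp (-x / 3) * Y ^ 2 := by gcongr
  have e5 : (Real.exp (-Y / 2) + Real.exp (-x)) ^ 2 ≤ 2 * Real.exp (-Y) +
      2 * x ^ 2 * Real.exp (-x / 3) := by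
    have h3 : Real.exp (-Y / 2) ^ 2 = Real.exp (-Y) := by
      rw [← Real.exp_nat_mul]
      congr 1
      push_cast
      ring
    have h4 : Real.exp (-x) ^ 2 ≤ Real.exp (-x / 3) := by
      rw [← Real.exp_nat_mul]
      apply Real.exp_le_exp.mpr
      push_cast
      linarith
    have h5 : Real.exp (-x / 3) ≤ x ^ 2 * Real.exp (-x / 3) := by
      have : (1:ℝ) ≤ x ^ 2 := by nlinarith
      exact le_mul_of_one_le_left (Real.exp_pos _).le this
    nlinarith [sq_nonneg (Real.exp (-Y / 2) - Real.exp (-x))]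
  have hVb : V ≤ 2 * Real.exp (-Y) + C₃ * x ^ 2 * Real.exp (-x / 3) := by
    calc V ≤ _ := hV
      _ ≤ (2 * Real.exp (-Y) + 2 * x ^ 2 * Real.exp (-x / 3)) +
          8 * C * (4 * k + 2) * x ^ 2 * Real.exp (-x / 3) := add_le_add e5 e4
      _ = _ := by rw [hC₃]; ring
  set Vb := 2 * Real.exp (-Y) + C₃ * x ^ 2 * Real.exp (-x / 3) with hVbdef
  have hVb0 : 0 ≤ Vb := by positivity
  -- the number of cells
  have hQ : (QS s N : ℝ) ≤ Real.exp (6 * u) := by
    have h3 : (QS s N : ℝ) ≤ Real.exp (5 * u) + 1 := (Nat.ceil_lt_add_one (Real.exp_pos _).le).le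
    have h4 : (1:ℝ) ≤ Real.exp (5 * u) := Real.one_le_exp (by linarith)
    have h5 : Real.exp (6 * u) = Real.exp (5 * u) * Real.exp u := by
      rw [← Real.exp_add]
      congr 1
      ring
    have h6 : (2:ℝ) ≤ Real.exp u := by
      have := Real.add_one_le_exp u
      linarith
    nlinarith
  have hQj : (QS s N : ℝ) ^ (2 * j) ≤ Real.exp (24 * K * u ^ 2) := by
    calc (QS s N : ℝ) ^ (2 * j) ≤ (Real.exp (6 * u)) ^ (2 * j) :=
          pow_le_pow_left₀ (Nat.cast_nonneg _) hQ _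
      _ = Real.exp (12 * j * u) := by
          rw [← Real.exp_nat_mul]
          congr 1
          push_cast
          ring
      _ ≤ Real.exp (24 * K * u ^ 2) := by
          apply Real.exp_le_exp.mpr
          have : (j:ℝ) * u ≤ 2 * K * u * u := mul_le_mul_of_nonneg_right hj (by linarith)
          nlinarith
  have e6 : Real.exp (24 * K * u ^ 2) * (2 * Real.exp (-Y)) * Real.exp (16 * u) ≤ 1 / 2 := by
    calc Real.exp (24 * K * u ^ 2) * (2 * Real.exp (-Y)) * Real.exp (16 * u)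
        = 2 * Real.exp (24 * K * u ^ 2 + -Y + 16 * u) := by
          rw [Real.exp_add, Real.exp_add]
          ring
      _ ≤ 2 * Real.exp (-4) := by
          gcongr
          nlinarith
      _ ≤ 1 / 2 := by
          have h3 : Real.exp (-4) = (Real.exp 4)⁻¹ := Real.exp_neg 4
          have h4 : (5:ℝ) ≤ Real.exp 4 := by
            have := Real.add_one_le_exp (4:ℝ)
            linarith
          rw [h3]
          have h5 : (Real.exp 4)⁻¹ ≤ (5:ℝ)⁻¹ := inv_anti₀ (by norm_num) h4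
          norm_num at h5 ⊢
          linarith
  have e8 : Real.exp (24 * K * u ^ 2) * (C₃ * x ^ 2 * Real.exp (-x / 3)) * Real.exp (16 * u) ≤
      1 / 2 := by
    have h3 : 24 * K * u ^ 2 + 16 * u ≤ x / 6 := by
      have h4 : 16 * u ≤ 16 * u ^ 2 := by nlinarith
      nlinarith
    calc Real.exp (24 * K * u ^ 2) * (C₃ * x ^ 2 * Real.exp (-x / 3)) * Real.exp (16 * u)
        = C₃ * x ^ 2 * Real.exp (24 * K * u ^ 2 + 16 * u + -x / 3) := by
          rw [Real.exp_add, Real.exp_add]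
          ring
      _ ≤ C₃ * x ^ 2 * Real.exp (-x / 6) := by
          apply mul_le_mul_of_nonneg_left _ (by positivity)
          apply Real.exp_le_exp.mpr
          linarith
      _ ≤ 1 / 2 := h1
  have e7 : Real.exp (24 * K * u ^ 2) * Vb * Real.exp (16 * u) ≤ 1 := by
    calc Real.exp (24 * K * u ^ 2) * Vb * Real.exp (16 * u)
        = Real.exp (24 * K * u ^ 2) * (2 * Real.exp (-Y)) * Real.exp (16 * u) +
          Real.exp (24 * K * u ^ 2) * (C₃ * x ^ 2 * Real.exp (-x / 3)) * Real.exp (16 * u) := by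
          rw [hVbdef]; ring
      _ ≤ 1 / 2 + 1 / 2 := add_le_add e6 e8
      _ = 1 := by norm_num
  have h4 : Real.exp (-(4 * u)) = 1 / Real.exp (4 * u) := by
    rw [Real.exp_neg, one_div]
  rw [h4, le_div_iff₀ (Real.exp_pos _)]
  calc (QS s N : ℝ) ^ (2 * j) * V * Real.exp (12 * u) * Real.exp (4 * u)
      = (QS s N : ℝ) ^ (2 * j) * V * Real.exp (16 * u) := by
        rw [mul_assoc, ← Real.exp_add]
        congr 2
        ring
    _ ≤ (QS s N : ℝ) ^ (2 * j) * Vb * Real.exp (16 * u) := by gcongr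
    _ ≤ Real.exp (24 * K * u ^ 2) * Vb * Real.exp (16 * u) := by gcongr
    _ ≤ 1 := e7

end Pool.Agent.Lib.P4a7640Z
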