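import Mathlib
import Pool.Agent.Lib.P4a7640Y.BrunP
import Pool.Agent.Lib.P4a7640Z.Par

/-!
# Brun's sieve in the window (rate version)
-/

open Filter Topology

namespace Pool.Agent.Lib.P4a7640Z

open Pool.Agent.Lib.P4a7640 Pool.Agent.Lib.P4a7640M Pool.Agent.Lib.P4a7640Y

lemma brun_large_s (m : ℝ) (hm : 0 ≤ m) : ∀ᶠ x : ℝ in atTop, ∀ t : ℝ,
    2 * Real.log x ≤ t → 16 * t ≤ x →
    (16 * m + 2) * x * (2 * m) + (16 * m + 2) * x * (Real.exp x * Real.exp (-(3 * t))) + x + 1 ≤
      Real.exp x * Real.exp (-(2 * t)) := by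
  have h1 := ((Real.isLittleO_pow_exp_atTop (n := 1)).bound
    (show (0:ℝ) < 1 / (4 * ((16 * m + 2) * (2 * m) + 2)) by positivity))
  have h2 : Tendsto (fun x : ℝ => x / 2) atTop atTop := tendsto_id.atTop_div_const (by norm_num)
  filter_upwards [h2.eventually h1, eventually_ge_atTop (1:ℝ),
    eventually_ge_atTop (2 * (16 * m + 2))] with x hx hx1 hx2 t ht1 ht2
  have hx0 : 0 < x := by linarith
  set c := (16 * m + 2) * (2 * m) + 2 with hc
  have hc0 : 0 < c := by positivity
  rw [Real.norm_eq_abs, Real.norm_eq_abs, abs_of_pos (by positivity),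
    abs_of_pos (Real.exp_pos _), pow_one] at hx
  set E := Real.exp x * Real.exp (-(2 * t)) with hE
  have hE0 : 0 < E := by positivity
  -- `exp (x / 2) ≤ E`
  have hE1 : Real.exp (x / 2) ≤ E := by
    rw [hE, ← Real.exp_add]
    apply Real.exp_le_exp.2
    linarith
  have h3 : c * x ≤ E / 2 := by
    have e1 : x / 2 ≤ 1 / (4 * c) * E := hx.trans (mul_le_mul_of_nonneg_left hE1 (by positivity))
    calc c * x = (2 * c) * (x / 2) := by ring
      _ ≤ (2 * c) * (1 / (4 * c) * E) := mul_le_mul_of_nonneg_left e1 (by positivity)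
      _ = E / 2 := by field_simp; ring
  -- `exp (-t) ≤ x⁻²`
  have h4 : Real.exp (-t) ≤ 1 / x ^ 2 := by
    have e1 : Real.exp (-t) ≤ Real.exp (-(2 * Real.log x)) := Real.exp_le_exp.2 (by linarith)
    have e2 : Real.exp (-(2 * Real.log x)) = 1 / x ^ 2 := by
      rw [Real.exp_neg, show 2 * Real.log x = Real.log (x ^ 2) by rw [Real.log_pow]; norm_num,
        Real.exp_log (by positivity), one_div]
    rw [← e2]; exact e1
  have h5 : (16 * m + 2) * x * (Real.exp x * Real.exp (-(3 * t))) ≤ E / 2 := by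
    have e1 : Real.exp (-(3 * t)) = Real.exp (-(2 * t)) * Real.exp (-t) := by
      rw [← Real.exp_add]; ring_nf
    have e2 : (16 * m + 2) * x * (1 / x ^ 2) ≤ 1 / 2 := by
      rw [mul_one_div, div_le_div_iff₀ (by positivity) (by norm_num)]
      nlinarith
    calc (16 * m + 2) * x * (Real.exp x * Real.exp (-(3 * t)))
        = E * ((16 * m + 2) * x * Real.exp (-t)) := by rw [e1, hE]; ring
      _ ≤ E * ((16 * m + 2) * x * (1 / x ^ 2)) := by
          refine mul_le_mul_of_nonneg_left ?_ hE0.le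
          exact mul_le_mul_of_nonneg_left h4 (by positivity)
      _ ≤ E * (1 / 2) := mul_le_mul_of_nonneg_left e2 hE0.le
      _ = E / 2 := by ring
  have h6 : (16 * m + 2) * x * (2 * m) + x + 1 ≤ c * x := by rw [hc]; nlinarith
  linarith

/-- module BrunS -/
theorem brun_s (H : Finset ℕ) {s : ℕ → ℝ} (h1 : ∀ᶠ N : ℕ in atTop, 2 * Real.log (lam N) ≤ s N)
    (h2 : ∀ᶠ N : ℕ in atTop, 16 * s N ≤ lam N) : ∀ᶠ N : ℕ in atTop, ∀ Q : Finset ℕ, (∀ p ∈ Q, InS s N p) →
    |P4a7640L.WA (MS s N) N (fun n => ∏ h ∈ H, P4a7640L.sQ Q (n + h))| ≤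
      Real.exp (-2 * H.card * ∑ p ∈ Q, (1:ℝ) / p) + Real.exp (-lam N) := by
  have hlogN : Tendsto (fun N : ℕ => Real.log N) atTop atTop :=
    Real.tendsto_log_atTop.comp tendsto_natCast_atTop_atTop
  have hm0 : (0:ℝ) ≤ H.card := Nat.cast_nonneg _
  filter_upwards [h1, h2, hlogN.eventually_ge_atTop (H.sup id + 2 * H.card + 1 : ℕ),
    tendsto_lam.eventually_ge_atTop 6, tendsto_lam.eventually (brun_large_s H.card hm0),
    eventually_ge_atTop 3] with N hsa hsb h2 h3 h4 h5 Q hQ
  set m : ℝ := (H.card : ℝ) with hm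
  have hl0 : 0 < lam N := by linarith
  have hll : 0 ≤ Real.log (lam N) := Real.log_nonneg (by linarith)
  have hs0 : 0 ≤ s N := by linarith
  have hlog0 : 0 < Real.log N := by
    have : (0:ℝ) ≤ ((H.sup id + 2 * H.card + 1 : ℕ) : ℝ) := Nat.cast_nonneg _
    have e1 : (1:ℝ) ≤ ((H.sup id + 2 * H.card + 1 : ℕ) : ℝ) := by
      exact_mod_cast (by omega : 1 ≤ H.sup id + 2 * H.card + 1)
    linarith
  have hexp : Real.exp (lam N) = Real.log N := by
    unfold lam
    exact Real.exp_log hlog0
  have h4 := h4 (s N) hsa hsb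
  rw [hexp] at h4
  set k := ⌈(16 * m + 1) * lam N⌉₊ with hk
  have hk1 : (16 * m + 1) * lam N ≤ k := Nat.le_ceil _
  have hk2 : (k:ℝ) ≤ (16 * m + 2) * lam N := by
    have := Nat.ceil_lt_add_one (show 0 ≤ (16 * m + 1) * lam N by positivity)
    rw [← hk] at this
    nlinarith
  have hkpos : 0 < k := by
    rw [hk, Nat.ceil_pos]
    positivity
  obtain ⟨R, hR⟩ : ∃ R, k = R + 1 := ⟨k - 1, by omega⟩
  have hMw1 : 1 ≤ MS s N := by
    unfold MS
    rw [Nat.one_le_ceil_iff]
    exact Real.exp_pos _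
  have hbig : ∀ p ∈ Q, (H.sup id + 2 * H.card + 1 : ℕ) < p := by
    intro p hp
    have := (hQ p hp).2.1
    exact_mod_cast lt_of_le_of_lt h2 this
  have hb := P4a7640L.brun_window (H := H) (Q := Q) (y := ⌊zs s N⌋₊) (R := R) (M := MS s N) (N := N)
    (Λ := 2 * lam N) (by
      intro p hp
      have e1 := hbig p hp
      refine ⟨(hQ p hp).1, fun h hh => ?_, by omega⟩
      have : h ≤ H.sup id := Finset.le_sup (f := id) hh
      omega) (fun p hp => Nat.le_floor (hQ p hp).2.2) (by
      have e0 : ∑ p ∈ Q, (1:ℝ) / p ≤ ∑ p ∈ Nat.primesLE N, (1:ℝ) / p := by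
        refine Finset.sum_le_sum_of_subset_of_nonneg ?_ (fun _ _ _ => by positivity)
        intro p hp
        rw [Nat.mem_primesLE]
        refine ⟨?_, (hQ p hp).1⟩
        have e1 : zs s N ≤ N := by
          have hN0 : (0:ℝ) < N := by exact_mod_cast (by omega : 0 < N)
          calc zs s N ≤ Real.exp (Real.log N) := by
                unfold zs
                apply Real.exp_le_exp.2
                have : Real.exp (-(3 * s N)) ≤ 1 := Real.exp_le_one_iff.2 (by linarith)
                nlinarith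
            _ = N := Real.exp_log hN0
        exact_mod_cast (hQ p hp).2.2.trans e1
      have e2 := sum_inv_primes_le N h5
      have e3 : Real.log (Real.log N) = lam N := rfl
      rw [e3] at e2
      linarith) hMw1 h5
  refine hb.trans ?_
  rw [← hR, add_assoc]
  refine add_le_add le_rfl ?_
  have hA := brun_fact hm0 (by linarith : (2:ℝ) ≤ lam N) hk1
  have hB : (1 + 2 * m * ((⌊zs s N⌋₊ : ℕ) : ℝ)) ^ k / ((MS s N : ℕ) : ℝ) ≤
      1 / 2 * Real.exp (-lam N) := by
    have hz1 : 1 ≤ zs s N := by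
      unfold zs
      rw [Real.one_le_exp_iff]
      positivity
    have g1 : 1 + 2 * m * ((⌊zs s N⌋₊ : ℕ) : ℝ) ≤
        Real.exp (2 * m + Real.log N * Real.exp (-(3 * s N))) := by
      have e1 : ((⌊zs s N⌋₊ : ℕ) : ℝ) ≤ zs s N := Nat.floor_le (by linarith)
      calc _ ≤ (1 + 2 * m) * zs s N := by nlinarith
        _ ≤ Real.exp (2 * m) * zs s N := by
            refine mul_le_mul_of_nonneg_right ?_ (by linarith)
            have := Real.add_one_le_exp (2 * m)
            linarith
        _ = _ := by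
            unfold zs
            rw [← Real.exp_add]
    have g2 : (1 + 2 * m * ((⌊zs s N⌋₊ : ℕ) : ℝ)) ^ k ≤
        Real.exp ((16 * m + 2) * lam N * (2 * m) +
          (16 * m + 2) * lam N * (Real.log N * Real.exp (-(3 * s N)))) := by
      calc _ ≤ (Real.exp (2 * m + Real.log N * Real.exp (-(3 * s N)))) ^ k :=
            pow_le_pow_left₀ (by positivity) g1 k
        _ = Real.exp (k * (2 * m + Real.log N * Real.exp (-(3 * s N)))) := by
            rw [← Real.exp_nat_mul]
        _ ≤ _ := by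
            apply Real.exp_le_exp.2
            have e2 : 0 ≤ 2 * m + Real.log N * Real.exp (-(3 * s N)) := by positivity
            calc _ ≤ (16 * m + 2) * lam N * (2 * m + Real.log N * Real.exp (-(3 * s N))) :=
                  mul_le_mul_of_nonneg_right hk2 e2
              _ = _ := by ring
    have g3 : Real.exp (Real.log N * Real.exp (-(2 * s N))) ≤ ((MS s N : ℕ) : ℝ) := by
      unfold MS
      exact Nat.le_ceil _
    have g4 : (0:ℝ) < ((MS s N : ℕ) : ℝ) := lt_of_lt_of_le (Real.exp_pos _) g3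
    have g5 : Real.exp (-1) ≤ 1 / 2 := by
      have := Real.exp_neg_one_lt_d9
      linarith
    rw [div_le_iff₀ g4]
    calc _ ≤ Real.exp ((16 * m + 2) * lam N * (2 * m) +
          (16 * m + 2) * lam N * (Real.log N * Real.exp (-(3 * s N)))) := g2
      _ ≤ Real.exp (-1) * Real.exp (-lam N) * Real.exp (Real.log N * Real.exp (-(2 * s N))) := by
          rw [← Real.exp_add, ← Real.exp_add]
          apply Real.exp_le_exp.2
          linarith
      _ ≤ 1 / 2 * Real.exp (-lam N) * ((MS s N : ℕ) : ℝ) := by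
          refine mul_le_mul ?_ g3 (Real.exp_pos _).le (by positivity)
          exact mul_le_mul_of_nonneg_right g5 (Real.exp_pos _).le
  have hC : Real.exp (-lam N) = 1 / 2 * Real.exp (-lam N) + 1 / 2 * Real.exp (-lam N) := by ring
  rw [hC]
  exact add_le_add hA hB

end Pool.Agent.Lib.P4a7640Z
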