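import Mathlib
import Pool.Agent.Lib.P4a7640Z.Par
import Pool.Agent.Lib.P4a7640Y.Head

/-!
# The integers below the window have small logarithmic mass (rate form)
-/

open Filter Topology

namespace Pool.Agent.Lib.P4a7640Z

open Pool.Agent.Lib.P4a7640 Pool.Agent.Lib.P4a7640M Pool.Agent.Lib.P4a7640Y

/-- module HeadS -/
theorem head_s : ∃ C : ℝ, 0 < C ∧ ∀ s : ℕ → ℝ, (∀ᶠ N : ℕ in atTop, 16 * s N ≤ lam N) →
    ∀ᶠ N : ℕ in atTop, (∑ n ∈ Finset.Icc 1 (MS s N), (1:ℝ) / n) / Real.log N ≤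
      C * Real.exp (-(2 * s N)) := by
  refine ⟨3, by norm_num, fun s hs => ?_⟩
  filter_upwards [hs, P4a7640Y.HeadAux.tendsto_lamN.eventually_ge_atTop 1,
    (Real.tendsto_log_atTop.comp tendsto_natCast_atTop_atTop).eventually_ge_atTop (1:ℝ)]
    with N h0 h1 h2
  have hl : 0 < Real.log N := lt_of_lt_of_le one_pos h2
  have hexp : Real.exp (lam N) = Real.log N := Real.exp_log hl
  have h3 : 2 * s N ≤ lam N := by
    rcases le_or_gt 0 (s N) with h | h <;> linarith
  set E : ℝ := Real.exp (-(2 * s N)) with hE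
  have hE0 : 0 < E := Real.exp_pos _
  have hM1 : 1 ≤ MS s N := Nat.one_le_ceil_iff.2 (Real.exp_pos _)
  have hlogM : Real.log (MS s N) ≤ Real.log N * E + 1 := by
    unfold MS
    rw [← hE]
    have h2' : (⌈Real.exp (Real.log N * E)⌉₊ : ℝ) < Real.exp (Real.log N * E) + 1 :=
      Nat.ceil_lt_add_one (Real.exp_pos _).le
    have h3 : 1 ≤ Real.exp (Real.log N * E) := Real.one_le_exp (by positivity)
    have h4 : (⌈Real.exp (Real.log N * E)⌉₊ : ℝ) ≤ Real.exp (Real.log N * E + 1) := by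
      rw [Real.exp_add]
      have h5 : (2:ℝ) ≤ Real.exp 1 := by
        have := Real.add_one_le_exp (1:ℝ)
        linarith
      nlinarith
    have h6 : (0:ℝ) < (⌈Real.exp (Real.log N * E)⌉₊ : ℝ) := by
      have : 1 ≤ ⌈Real.exp (Real.log N * E)⌉₊ := Nat.one_le_ceil_iff.2 (Real.exp_pos _)
      exact_mod_cast this
    rw [Real.log_le_iff_le_exp h6]
    exact h4
  have h7 := P4a7640Y.HeadAux.sum_Icc_inv_le (MS s N)
  have h8 : 1 ≤ Real.log N * E := by
    rw [hE, ← hexp, ← Real.exp_add]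
    exact Real.one_le_exp (by linarith)
  rw [div_le_iff₀ hl]
  nlinarith

end Pool.Agent.Lib.P4a7640Z
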