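import Mathlib
import Pool.Agent.Lib.P4a7640Y.SecY
import Pool.Agent.Lib.P4a7640Z.Par

/-!
# The second moment on the circle, for a general window
-/

open MeasureTheory Filter Finset

namespace Pool.Agent.Lib.P4a7640Z

open Pool.Agent.Lib.P4a7640 Pool.Agent.Lib.P4a7640M Pool.Agent.Lib.P4a7640Y

variable {φ : ℕ → UnitAddCircle → ℝ} {a : ℕ → ℕ}

open Classical in
theorem sec_mom_g (W : ℕ → Prop) (D : Finset ℕ) (hφ : ∀ p, Measurable (φ p)) (hb : ∀ p x, |φ p x| ≤ 1) {C : ℝ}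
    (hC : ∀ p, LL1 C (φ p)) (ha : ∀ p : ℕ, p.Prime → a p ≠ 0) {H : Finset ℕ} {M N : ℕ} (hM : 1 ≤ M)
    (hN : 3 ≤ N) {bad : ℕ → Prop} {K₀ : ℝ} (hKnn : 0 ≤ K₀)
    (hgood : ∀ n ∈ Ioc M N, ¬ bad n → (((oddT (MM H n)).filter (fun p => ¬ W p)).card : ℝ) ≤ K₀)
    (hpart : ∀ n ∈ Ioc M N, ¬ bad n → ∀ f : ℕ → ℝ,
      ∏ p ∈ (oddT (MM H n)).filter (fun p => W p), f p =
        ∏ h ∈ H, ∏ p ∈ D.filter (fun p => p ∣ n + h), f p)
    {c : ℕ → ℝ} (hc : ∀ n, |c n| ≤ 1 / n / Real.log N) {Q : ℕ} (hQ : 0 < Q) {j : ℕ}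
    (hj : ∀ m : ℕ, (m : ℝ) ≤ 2 * K₀ → m ≤ j) {η : ℝ} (hη : 0 < η) :
    ∫ x, FT φ a H (Ioc M N) c x ^ 2 ≤
      2 * ((∑ n ∈ (Ioc M N).filter bad, (1:ℝ) / n) / Real.log N) + (2 * K₀ * (C / Q) + η) +
        (Q:ℝ) ^ (2 * j) / η ^ 3 *
          ∑ n ∈ Ioc M N, ∑ n' ∈ Ioc M N, ((1:ℝ) / n / Real.log N * (1 / n' / Real.log N)) *
            ∫ h, AC (fun x => WW φ a H D n x * WW φ a H D n' x) h ^ 2 := by
  have hlog : 1 ≤ Real.log N := P4a7640L.Brun.log_ge_one hN
  have hl : 0 < Real.log N := by linarith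
  have hC0 : 0 ≤ C := (hC 0).nonneg
  have hQ0 : (0:ℝ) < Q := by exact_mod_cast hQ
  set v : ℕ → ℝ := fun n => (1:ℝ) / n / Real.log N with hv
  have hv0 : ∀ n, 0 ≤ v n := fun n => by rw [hv]; positivity
  have hvs : ∑ n ∈ Ioc M N, v n ≤ 1 := by
    rw [hv, ← Finset.sum_div, div_le_one hl]
    exact P4a7640L.Brun.sum_inv_le hM
  have hvs0 : 0 ≤ ∑ n ∈ Ioc M N, v n := Finset.sum_nonneg fun n _ => hv0 n
  set I : ℕ → ℕ → ℝ := fun n n' => ∫ h, AC (fun x => WW φ a H D n x * WW φ a H D n' x) h ^ 2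
    with hI
  have hI0 : ∀ n n', 0 ≤ I n n' := fun n n' => integral_nonneg fun h => sq_nonneg _
  set G : ℕ → UnitAddCircle → ℝ := fun n => GG φ a (oddT (MM H n)) with hG
  have hGm : ∀ n, Measurable (G n) := fun n => measurable_GG hφ _
  have hGb : ∀ n x, |G n x| ≤ 1 := fun n x => abs_GG_le hb _ _
  -- expansion of the square
  have hsq : ∀ x, FT φ a H (Ioc M N) c x ^ 2 =
      ∑ n ∈ Ioc M N, ∑ n' ∈ Ioc M N, (c n * c n') * (G n x * G n' x) := by
    intro x
    unfold FT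
    rw [sq, Finset.sum_mul_sum]
    refine Finset.sum_congr rfl fun n _ => Finset.sum_congr rfl fun n' _ => ?_
    ring
  have hGi : ∀ n n', Integrable (fun x => G n x * G n' x) volume := fun n n' =>
    int_mul_bdd (hGm n) (hGm n') (hGb n) (hGb n')
  have hint : ∫ x, FT φ a H (Ioc M N) c x ^ 2 =
      ∑ n ∈ Ioc M N, ∑ n' ∈ Ioc M N, (c n * c n') * ∫ x, G n x * G n' x := by
    simp_rw [hsq]
    rw [integral_finsetSum _ fun n _ => integrable_finsetSum _ fun n' _ => (hGi n n').const_mul _]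
    refine Finset.sum_congr rfl fun n _ => ?_
    rw [integral_finsetSum _ fun n' _ => (hGi n n').const_mul _]
    exact Finset.sum_congr rfl fun n' _ => integral_const_mul _ _
  -- one pair
  set E : ℝ := 2 * K₀ * (C / Q) + η with hE
  have hsplit : ∀ n ∈ Ioc M N, ¬ bad n → ∀ x, G n x =
      GG φ a ((oddT (MM H n)).filter (fun p => ¬ W p)) x * WW φ a H D n x := by
    intro n hn hbn x
    have h1 := hpart n hn hbn (fun p => φ p (a p • x))
    show (∏ p ∈ oddT (MM H n), φ p (a p • x)) = _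
    rw [← Finset.prod_filter_mul_prod_filter_not (oddT (MM H n)) (fun p => W p), h1, mul_comm]
    rfl
  have hprime : ∀ n, ∀ p ∈ (oddT (MM H n)).filter (fun p => ¬ W p), a p ≠ 0 := by
    intro n p hp
    have h1 := (Finset.mem_filter.mp hp).1
    unfold oddT at h1
    exact ha p (Nat.prime_of_mem_primeFactors (Finset.mem_filter.mp h1).1)
  have hpair : ∀ n ∈ Ioc M N, ∀ n' ∈ Ioc M N, ¬ bad n → ¬ bad n' →
      |∫ x, G n x * G n' x| ≤ E + (Q:ℝ) ^ (2 * j) / η ^ 3 * I n n' := by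
    intro n hn n' hn' hbn hbn'
    set S := (oddT (MM H n)).filter (fun p => ¬ W p) with hS
    set S' := (oddT (MM H n')).filter (fun p => ¬ W p) with hS'
    have h1 := hgood n hn hbn
    have h2 := hgood n' hn' hbn'
    have hcard : (S ∪ S').card ≤ j := by
      apply hj
      have h3 : ((S ∪ S').card : ℝ) ≤ S.card + S'.card := by exact_mod_cast Finset.card_union_le S S'
      linarith
    have h4 := pair_bound (W := fun x => WW φ a H D n x * WW φ a H D n' x) hφ hb hC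
      (S := S) (S' := S') (a := a) (by
        intro p hp
        rcases Finset.mem_union.mp hp with h | h
        · exact hprime n p h
        · exact hprime n' p h)
      ((measurable_WW hφ n).mul (measurable_WW hφ n'))
      (fun x => mul_bd (abs_WW_le hb n x) (abs_WW_le hb n' x)) hQ hcard hη
    have h5 : ∫ x, G n x * G n' x = ∫ x, (GG φ a S x * GG φ a S' x) *
        (WW φ a H D n x * WW φ a H D n' x) := by
      congr 1
      funext x
      rw [hsplit n hn hbn x, hsplit n' hn' hbn' x]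
      ring
    rw [h5]
    refine h4.trans ?_
    have h6 : ((S.card : ℝ) + S'.card) * (C / Q) ≤ 2 * K₀ * (C / Q) :=
      mul_le_mul_of_nonneg_right (by linarith) (by positivity)
    have h7 : (Q:ℝ) ^ (2 * j) * (∫ h, AC (fun x => WW φ a H D n x * WW φ a H D n' x) h ^ 2) /
        η ^ 3 = (Q:ℝ) ^ (2 * j) / η ^ 3 * I n n' := by
      rw [hI]
      ring
    rw [h7]
    linarith
  have htriv : ∀ n n', |∫ x, G n x * G n' x| ≤ 1 := fun n n' =>
    abs_int_le fun x => mul_bd (hGb n x) (hGb n' x)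
  -- the sum of the bounds
  set b : ℕ → ℝ := fun n => if bad n then (1:ℝ) else 0 with hbdef
  have hb0 : ∀ n, 0 ≤ b n := fun n => by rw [hbdef]; show 0 ≤ ite _ _ _; split_ifs <;> norm_num
  have hE0 : 0 ≤ E := by rw [hE]; positivity
  have hterm : ∀ n ∈ Ioc M N, ∀ n' ∈ Ioc M N, (c n * c n') * ∫ x, G n x * G n' x ≤
      (v n * b n) * v n' + v n * (v n' * b n') + E * (v n * v n') +
        (Q:ℝ) ^ (2 * j) / η ^ 3 * ((v n * v n') * I n n') := by
    intro n hn n' hn'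
    have hcc : |c n| * |c n'| ≤ v n * v n' := mul_le_mul (hc n) (hc n') (abs_nonneg _) (hv0 n)
    have hvv : 0 ≤ v n * v n' := mul_nonneg (hv0 n) (hv0 n')
    have hx : (c n * c n') * ∫ x, G n x * G n' x ≤ (v n * v n') * |∫ x, G n x * G n' x| := by
      refine (le_abs_self _).trans ?_
      rw [abs_mul, abs_mul]
      exact mul_le_mul_of_nonneg_right hcc (abs_nonneg _)
    refine hx.trans ?_
    have hrest : 0 ≤ (Q:ℝ) ^ (2 * j) / η ^ 3 * ((v n * v n') * I n n') :=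
      mul_nonneg (by positivity) (mul_nonneg hvv (hI0 n n'))
    have hEvv : 0 ≤ E * (v n * v n') := mul_nonneg hE0 hvv
    have hb1 : 0 ≤ (v n * b n) * v n' := mul_nonneg (mul_nonneg (hv0 n) (hb0 n)) (hv0 n')
    have hb2 : 0 ≤ v n * (v n' * b n') := mul_nonneg (hv0 n) (mul_nonneg (hv0 n') (hb0 n'))
    by_cases h1 : bad n
    · have h2 : b n = 1 := if_pos h1
      have h3 := mul_le_mul_of_nonneg_left (htriv n n') hvv
      rw [h2] at hb1 ⊢
      linarith
    · by_cases h1' : bad n'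
      · have h2 : b n' = 1 := if_pos h1'
        have h3 := mul_le_mul_of_nonneg_left (htriv n n') hvv
        rw [h2] at hb2 ⊢
        linarith
      · have h3 := mul_le_mul_of_nonneg_left (hpair n hn n' hn' h1 h1') hvv
        have h4 : (v n * v n') * (E + (Q:ℝ) ^ (2 * j) / η ^ 3 * I n n') =
            E * (v n * v n') + (Q:ℝ) ^ (2 * j) / η ^ 3 * ((v n * v n') * I n n') := by ring
        linarith
  rw [hint]
  refine (Finset.sum_le_sum fun n hn => Finset.sum_le_sum fun n' hn' => hterm n hn n' hn').trans ?_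
  simp_rw [Finset.sum_add_distrib]
  have hbsum : ∑ n ∈ Ioc M N, v n * b n = (∑ n ∈ (Ioc M N).filter bad, (1:ℝ) / n) / Real.log N := by
    rw [Finset.sum_div, Finset.sum_filter]
    refine Finset.sum_congr rfl fun n _ => ?_
    rw [hbdef]
    show v n * (if bad n then (1:ℝ) else 0) = _
    split_ifs
    · rw [mul_one]
    · rw [mul_zero]
  have hbs0 : 0 ≤ ∑ n ∈ Ioc M N, v n * b n := Finset.sum_nonneg fun n _ => mul_nonneg (hv0 n) (hb0 n)
  have s1 : ∑ n ∈ Ioc M N, ∑ n' ∈ Ioc M N, (v n * b n) * v n' ≤ ∑ n ∈ Ioc M N, v n * b n := by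
    rw [← Finset.sum_mul_sum]
    exact mul_le_of_le_one_right hbs0 hvs
  have s2 : ∑ n ∈ Ioc M N, ∑ n' ∈ Ioc M N, v n * (v n' * b n') ≤ ∑ n ∈ Ioc M N, v n * b n := by
    rw [← Finset.sum_mul_sum]
    exact mul_le_of_le_one_left hbs0 hvs
  have s3 : ∑ n ∈ Ioc M N, ∑ n' ∈ Ioc M N, E * (v n * v n') ≤ E := by
    simp_rw [← Finset.mul_sum]
    rw [← Finset.sum_mul]
    exact mul_le_of_le_one_right hE0 (mul_le_one₀ hvs hvs0 hvs)
  have s4 : ∑ n ∈ Ioc M N, ∑ n' ∈ Ioc M N, (Q:ℝ) ^ (2 * j) / η ^ 3 * ((v n * v n') * I n n') =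
      (Q:ℝ) ^ (2 * j) / η ^ 3 * ∑ n ∈ Ioc M N, ∑ n' ∈ Ioc M N, (v n * v n') * I n n' := by
    rw [Finset.mul_sum]
    exact Finset.sum_congr rfl fun n _ => by rw [Finset.mul_sum]
  rw [s4]
  rw [hbsum] at s1 s2
  linarith

end Pool.Agent.Lib.P4a7640Z
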