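import Mathlib
import Pool.Agent.Lib.P4a7640Y.Tail
import Pool.Agent.Lib.P4a7640Z.Par

/-!
# Few prime factors outside the window (rate version)
-/

open Filter Topology

namespace Pool.Agent.Lib.P4a7640Z

open Pool.Agent.Lib.P4a7640 Pool.Agent.Lib.P4a7640M Pool.Agent.Lib.P4a7640L
open Pool.Agent.Lib.P4a7640Y

open Classical in
/-- the primes outside the window -/
noncomputable def RSS (s : ℕ → ℝ) (N m : ℕ) : Finset ℕ :=
  (Finset.Icc 1 (N + m)).filter (fun p => p.Prime ∧ ¬ InS s N p)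

lemma rest_mass_s (m : ℕ) : ∃ C : ℝ, ∀ s : ℕ → ℝ,
    (∀ᶠ N : ℕ in atTop, 2 * Real.log (lam N) ≤ s N) → (∀ᶠ N : ℕ in atTop, 16 * s N ≤ lam N) →
    ∀ᶠ N : ℕ in atTop, ∑ p ∈ RSS s N m, (1:ℝ) / p ≤ 4 * s N + C := by
  classical
  obtain ⟨C, hC0, hC⟩ := mertens_upper
  refine ⟨7 + C, fun s hs1 hs2 => ?_⟩
  have hlogN : Tendsto (fun N : ℕ => Real.log N) atTop atTop :=
    Real.tendsto_log_atTop.comp tendsto_natCast_atTop_atTop
  filter_upwards [hlogN.eventually_ge_atTop 4, hs1, hs2,
    tendsto_lam.eventually_ge_atTop 1, eventually_add_le_sq m, eventually_ge_atTop 2]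
    with N h1 hsa hsb h3 h4 h5
  have hl0 : 0 < lam N := by linarith
  have hlog0 : 0 < Real.log N := by linarith
  have hll : 0 ≤ Real.log (lam N) := Real.log_nonneg h3
  have hs0 : 0 ≤ s N := by linarith
  -- split
  have hsub : RSS s N m ⊆ Nat.primesLE ⌊Real.log N⌋₊ ∪
      (Finset.Icc 1 (N + m)).filter (fun p : ℕ => p.Prime ∧ zs s N < p) := by
    intro p hp
    unfold RSS at hp
    rw [Finset.mem_filter] at hp
    rw [Finset.mem_union]
    rcases le_or_gt (p:ℝ) (Real.log N) with h | h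
    · left
      rw [Nat.mem_primesLE]
      exact ⟨Nat.le_floor h, hp.2.1⟩
    · right
      rw [Finset.mem_filter]
      refine ⟨hp.1, hp.2.1, ?_⟩
      by_contra hcon
      push Not at hcon
      exact hp.2.2 ⟨hp.2.1, h, hcon⟩
  have hfl : 3 ≤ ⌊Real.log N⌋₊ := Nat.le_floor (by push_cast; linarith)
  have hA : ∑ p ∈ Nat.primesLE ⌊Real.log N⌋₊, (1:ℝ) / p ≤ Real.log (lam N) + 6 := by
    refine (sum_inv_primes_le _ hfl).trans ?_
    have e1 : ((⌊Real.log N⌋₊ : ℕ) : ℝ) ≤ Real.log N := Nat.floor_le hlog0.le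
    have e2 : (3:ℝ) ≤ ((⌊Real.log N⌋₊ : ℕ) : ℝ) := by exact_mod_cast hfl
    have e3 : 0 < Real.log ((⌊Real.log N⌋₊ : ℕ) : ℝ) := Real.log_pos (by linarith)
    have e4 : Real.log ((⌊Real.log N⌋₊ : ℕ) : ℝ) ≤ lam N := by
      unfold lam
      exact Real.log_le_log (by linarith) e1
    have := Real.log_le_log e3 e4
    linarith
  set α := lam N - 3 * s N with hα
  have hα0 : 0 ≤ α := by rw [hα]; linarith
  have hratio : 0 < Real.log N * Real.exp (-(3 * s N)) := by positivity
  have hαe : α = Real.log (Real.log N * Real.exp (-(3 * s N))) := by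
    rw [Real.log_mul hlog0.ne' (Real.exp_pos _).ne', Real.log_exp, hα]
    unfold lam
    ring
  have hB : ∑ p ∈ (Finset.Icc 1 (N + m)).filter (fun p : ℕ => p.Prime ∧ zs s N < p), (1:ℝ) / p ≤
      3 * s N + 1 + C := by
    have hαβ : α ≤ lam N + 1 := by
      rw [hα]; linarith
    refine (hC α (lam N + 1) hα0 hαβ _ ?_).trans ?_
    · intro p hp
      rw [Finset.mem_filter, Finset.mem_Icc] at hp
      have e1 : Real.log N * Real.exp (-(3 * s N)) < Real.log p := by
        have := Real.log_lt_log (Real.exp_pos _) hp.2.2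
        unfold zs at this
        rwa [Real.log_exp] at this
      refine ⟨hp.2.1, ?_, ?_⟩
      · unfold ll
        rw [hαe]
        exact Real.log_le_log hratio e1.le
      · unfold ll
        have e2 : Real.log p ≤ 2 * Real.log N := by
          refine le_trans ?_ h4
          apply Real.log_le_log
          · exact_mod_cast hp.2.1.pos
          · exact_mod_cast hp.1.2
        calc Real.log (Real.log p) ≤ Real.log (2 * Real.log N) :=
              Real.log_le_log (hratio.trans e1) e2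
          _ = Real.log 2 + lam N := by
              rw [Real.log_mul (by norm_num) hlog0.ne']
              rfl
          _ ≤ lam N + 1 := by
              have := Real.log_two_lt_d9
              linarith
    · have e1 : Real.exp (-α) ≤ 1 := Real.exp_le_one_iff.2 (by linarith)
      have e2 : C * Real.exp (-α) ≤ C := by nlinarith
      rw [hα] at *
      linarith
  calc ∑ p ∈ RSS s N m, (1:ℝ) / p ≤ ∑ p ∈ Nat.primesLE ⌊Real.log N⌋₊ ∪
      (Finset.Icc 1 (N + m)).filter (fun p : ℕ => p.Prime ∧ zs s N < p), (1:ℝ) / p :=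
        Finset.sum_le_sum_of_subset_of_nonneg hsub (fun _ _ _ => by positivity)
    _ ≤ ∑ p ∈ Nat.primesLE ⌊Real.log N⌋₊, (1:ℝ) / p +
      ∑ p ∈ (Finset.Icc 1 (N + m)).filter (fun p : ℕ => p.Prime ∧ zs s N < p), (1:ℝ) / p := by
        rw [← Finset.sum_union_inter]
        have : (0:ℝ) ≤ ∑ p ∈ Nat.primesLE ⌊Real.log N⌋₊ ∩
          (Finset.Icc 1 (N + m)).filter (fun p : ℕ => p.Prime ∧ zs s N < p), (1:ℝ) / p :=
          Finset.sum_nonneg (fun _ _ => by positivity)
        linarith
    _ ≤ _ := by linarith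

open Classical in
/-- module TailS -/
theorem tail_s (H : Finset ℕ) : ∃ K : ℝ, 0 < K ∧ ∃ C : ℝ, 0 < C ∧ ∀ s : ℕ → ℝ,
    (∀ᶠ N : ℕ in atTop, 2 * Real.log (lam N) ≤ s N) → (∀ᶠ N : ℕ in atTop, 16 * s N ≤ lam N) →
    ∀ᶠ N : ℕ in atTop, (∑ n ∈ (Finset.Icc 1 N).filter (fun n => K * s N <
      ((oddT (MM H n)).filter (fun p => ¬ InS s N p)).card), (1:ℝ) / n) / Real.log N ≤
        C * Real.exp (-(4 * s N)) := by
  set m := H.sup id with hm
  have hHm : ∀ h ∈ H, h ≤ m := fun h hh => Finset.le_sup (f := id) hh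
  obtain ⟨C₁, hC₁⟩ := rest_mass_s m
  refine ⟨20 * H.card + 1, by positivity,
    3 * Real.exp (2 * C₁) * (∑ h ∈ H, (1 + (h:ℝ))) + 1, by positivity, fun s hs1 hs2 => ?_⟩
  have hlogN : Tendsto (fun N : ℕ => Real.log N) atTop atTop :=
    Real.tendsto_log_atTop.comp tendsto_natCast_atTop_atTop
  filter_upwards [hC₁ s hs1 hs2, hs1, hs2, hlogN.eventually_ge_atTop 1,
    tendsto_lam.eventually_ge_atTop 3, eventually_add_le_sq m, eventually_ge_atTop 2]
    with N h1 hsa hsb h2 h3 h4 h5
  have hl1 : 1 ≤ lam N := by linarith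
  have hl0 : 0 < lam N := by linarith
  have hll : 0 < Real.log (lam N) := Real.log_pos (by linarith)
  have hs0 : 0 < s N := by linarith
  have hlog0 : 0 < Real.log N := by linarith
  set k := ⌊20 * s N⌋₊ + 1 with hk
  have hk1 : 20 * s N ≤ k := by
    rw [hk]
    push_cast
    exact (Nat.lt_floor_add_one _).le
  set S := RSS s N m with hS
  have hSp : ∀ p ∈ S, p.Prime := fun p hp => (Finset.mem_filter.1 hp).2.1
  -- the cover
  have hcov : (Finset.Icc 1 N).filter (fun n => (20 * H.card + 1) * s N <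
      ((oddT (MM H n)).filter (fun p => ¬ InS s N p)).card) ⊆
      H.biUnion (fun h => (Finset.Icc 1 N).filter
        (fun n => k ≤ (S.filter (fun p => p ∣ n + h)).card)) := by
    intro n hn
    rw [Finset.mem_filter] at hn
    rw [Finset.mem_biUnion]
    by_contra hcon
    push Not at hcon
    have hle : ∀ h ∈ H, (((S.filter (fun p => p ∣ n + h)).card : ℕ) : ℝ) ≤
        20 * s N := by
      intro h hh
      have e1 := hcon h hh
      rw [Finset.mem_filter] at e1
      push Not at e1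
      have e2 := e1 hn.1
      have e3 : (S.filter (fun p => p ∣ n + h)).card ≤ ⌊20 * s N⌋₊ := by omega
      calc _ ≤ ((⌊20 * s N⌋₊ : ℕ) : ℝ) := by exact_mod_cast e3
        _ ≤ _ := Nat.floor_le (by positivity)
    have hsub : (oddT (MM H n)).filter (fun p => ¬ InS s N p) ⊆
        H.biUnion (fun h => S.filter (fun p => p ∣ n + h)) := by
      intro p hp
      rw [Finset.mem_filter] at hp
      obtain ⟨h, hh, hd⟩ := exists_dvd_of_mem_oddT hp.1
      rw [Finset.mem_biUnion]
      refine ⟨h, hh, ?_⟩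
      rw [Finset.mem_filter]
      refine ⟨?_, hd⟩
      rw [hS, RSS, Finset.mem_filter, Finset.mem_Icc]
      have hpp := prime_of_mem_oddT hp.1
      have hn1 := Finset.mem_Icc.1 hn.1
      have hm1 := hHm h hh
      have := Nat.le_of_dvd (by omega) hd
      exact ⟨⟨hpp.one_lt.le, by omega⟩, hpp, hp.2⟩
    have e4 : (((oddT (MM H n)).filter (fun p => ¬ InS s N p)).card : ℝ) ≤
        H.card * (20 * s N) := by
      calc _ ≤ ((∑ h ∈ H, (S.filter (fun p => p ∣ n + h)).card : ℕ) : ℝ) := by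
            exact_mod_cast (Finset.card_le_card hsub).trans Finset.card_biUnion_le
        _ = ∑ h ∈ H, (((S.filter (fun p => p ∣ n + h)).card : ℕ) : ℝ) := by push_cast; rfl
        _ ≤ ∑ h ∈ H, 20 * s N := Finset.sum_le_sum hle
        _ = _ := by rw [Finset.sum_const, nsmul_eq_mul]
    have e5 := hn.2
    nlinarith
  -- one shift
  have hE0 : 0 ≤ ∑ p ∈ S, (1:ℝ) / p := Finset.sum_nonneg (fun _ _ => by positivity)
  have hone : ∀ h ∈ H, ∑ n ∈ (Finset.Icc 1 N).filter
      (fun n => k ≤ (S.filter (fun p => p ∣ n + h)).card), (1:ℝ) / n ≤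
      (1 + h) * (3 * Real.log N) * (Real.exp (2 * C₁) * Real.exp (-(4 * s N))) := by
    intro h hh
    refine (tail_count S hSp N h k).trans ?_
    have e1 : Real.log ((N + h : ℕ) : ℝ) ≤ 2 * Real.log N := by
      refine le_trans ?_ h4
      apply Real.log_le_log
      · exact_mod_cast (by omega : 0 < N + h)
      · exact_mod_cast (by have := hHm h hh; omega : N + h ≤ N + m)
    have e2 : (∑ p ∈ S, (1:ℝ) / p) ^ k / (k.factorial : ℝ) ≤
        Real.exp (2 * C₁) * Real.exp (-(4 * s N)) := by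
      have f1 := Real.pow_div_factorial_le_exp (2 * ∑ p ∈ S, (1:ℝ) / p) (by positivity) k
      rw [mul_pow] at f1
      have f2 : (∑ p ∈ S, (1:ℝ) / p) ^ k / (k.factorial : ℝ) ≤
          Real.exp (2 * ∑ p ∈ S, (1:ℝ) / p) * Real.exp (-(Real.log 2 * k)) := by
        have f3 : Real.exp (-(Real.log 2 * k)) = ((2:ℝ) ^ k)⁻¹ := by
          rw [Real.exp_neg, Real.exp_mul, Real.exp_log (by norm_num), Real.rpow_natCast]
        rw [f3, ← div_eq_mul_inv, le_div_iff₀ (by positivity)]
        calc _ = 2 ^ k * (∑ p ∈ S, (1:ℝ) / p) ^ k / (k.factorial : ℝ) := by ring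
          _ ≤ _ := f1
      refine f2.trans ?_
      rw [← Real.exp_add, ← Real.exp_add]
      apply Real.exp_le_exp.2
      have f5 := Real.log_two_gt_d9
      have f6 : Real.log 2 * (20 * s N) ≤ Real.log 2 * k :=
        mul_le_mul_of_nonneg_left hk1 (by linarith)
      nlinarith
    have e3 := Real.log_natCast_nonneg (N + h)
    refine mul_le_mul ?_ e2 (by positivity) (by positivity)
    refine mul_le_mul_of_nonneg_left ?_ (by positivity)
    linarith
  have htot : ∑ n ∈ (Finset.Icc 1 N).filter (fun n => (20 * H.card + 1) * s N <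
      ((oddT (MM H n)).filter (fun p => ¬ InS s N p)).card), (1:ℝ) / n ≤
      ∑ h ∈ H, (1 + h) * (3 * Real.log N) * (Real.exp (2 * C₁) * Real.exp (-(4 * s N))) := by
    refine le_trans (Finset.sum_le_sum_of_subset_of_nonneg hcov
      (fun _ _ _ => by positivity)) ?_
    refine le_trans ?_ (Finset.sum_le_sum hone)
    exact tail_biUnion _ _ _ (fun n => by positivity)
  rw [div_le_iff₀ hlog0]
  refine htot.trans ?_
  have g1 : ∑ h ∈ H, (1 + (h:ℝ)) * (3 * Real.log N) * (Real.exp (2 * C₁) * Real.exp (-(4 * s N))) =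
      (3 * Real.exp (2 * C₁) * ∑ h ∈ H, (1 + (h:ℝ))) * Real.exp (-(4 * s N)) * Real.log N := by
    rw [← Finset.sum_mul, ← Finset.sum_mul]
    ring
  rw [g1]
  refine mul_le_mul_of_nonneg_right ?_ hlog0.le
  refine mul_le_mul_of_nonneg_right ?_ (Real.exp_pos _).le
  linarith

end Pool.Agent.Lib.P4a7640Z
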