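import Mathlib
import Pool.Agent.Lib.P4a7640Z.Par
import Pool.Agent.Lib.P4a7640Y.WinPart

/-!
# The window part of `n + h` for several shifts, window depending on a rate function
-/

open Filter Finset

namespace Pool.Agent.Lib.P4a7640Z

open Pool.Agent.Lib.P4a7640 Pool.Agent.Lib.P4a7640M Pool.Agent.Lib.P4a7640Y

open Classical in
/-- membership in the window part -/
theorem mem_win_s {s : ℕ → ℝ} {H : Finset ℕ} {N n : ℕ} (hH : ∀ h ∈ H, (h:ℝ) ≤ Real.log N) (hn : 1 ≤ n)
    (hz : zs s N ≤ N) (hsq : ¬ ∃ h ∈ H, ∃ p : ℕ, p.Prime ∧ Real.log N < p ∧ p ^ 2 ∣ n + h) (p : ℕ) :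
    p ∈ (oddT (MM H n)).filter (fun p => InS s N p) ↔
      ∃ h ∈ H, p ∈ (DS s N).filter (fun p => p ∣ n + h) := by
  have hne : ∀ h ∈ H, n + h ≠ 0 := fun h _ => by omega
  have hMM : MM H n ≠ 0 := Finset.prod_ne_zero_iff.2 hne
  constructor
  · intro hp
    rw [Finset.mem_filter] at hp
    obtain ⟨hpT, hpW⟩ := hp
    unfold oddT at hpT
    rw [Finset.mem_filter, Nat.mem_primeFactors] at hpT
    obtain ⟨h, hh, hph⟩ := (Nat.Prime.prime hpW.1).exists_mem_finset_dvd hpT.1.2.1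
    refine ⟨h, hh, ?_⟩
    rw [Finset.mem_filter, DS, Finset.mem_filter, Finset.mem_Icc]
    refine ⟨⟨⟨hpW.1.one_lt.le, ?_⟩, hpW⟩, hph⟩
    have h1 := hpW.2.2.trans hz
    exact_mod_cast h1
  · rintro ⟨h, hh, hp⟩
    rw [Finset.mem_filter, DS, Finset.mem_filter] at hp
    obtain ⟨⟨-, hpW⟩, hph⟩ := hp
    rw [Finset.mem_filter]
    refine ⟨?_, hpW⟩
    unfold oddT
    rw [Finset.mem_filter, Nat.mem_primeFactors]
    have hdvd : p ∣ MM H n := hph.trans (Finset.dvd_prod_of_mem (fun h => n + h) hh)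
    refine ⟨⟨hpW.1, hdvd, hMM⟩, ?_⟩
    have hfac : (MM H n).factorization p = (n + h).factorization p := by
      unfold MM
      rw [Nat.factorization_prod hne, Finsupp.finsetSum_apply]
      refine Finset.sum_eq_single h (fun h' hh' hne' => ?_) (fun hh' => absurd hh hh')
      refine Nat.factorization_eq_zero_of_not_dvd fun hd => hne' ?_
      exact shift_unique (hH h' hh') (hH h hh) hpW.2.1 hd hph
    have h1 : (n + h).factorization p = 1 := by
      have h2 : 1 ≤ (n + h).factorization p :=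
        (hpW.1.dvd_iff_one_le_factorization (hne h hh)).1 hph
      have h3 : ¬ 2 ≤ (n + h).factorization p := by
        intro h4
        exact hsq ⟨h, hh, p, hpW.1, hpW.2.1, (hpW.1.pow_dvd_iff_le_factorization (hne h hh)).2 h4⟩
      omega
    rw [hfac, h1]
    exact odd_one

open Classical in
/-- module WinPartS: the window part of `oddT (MM H n)` is the disjoint union over `h ∈ H` of the window
primes dividing `n + h` -/
theorem win_part_s {s : ℕ → ℝ} {H : Finset ℕ} {N n : ℕ} (hH : ∀ h ∈ H, (h:ℝ) ≤ Real.log N) (hn : 1 ≤ n)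
    (hz : zs s N ≤ N) (hsq : ¬ ∃ h ∈ H, ∃ p : ℕ, p.Prime ∧ Real.log N < p ∧ p ^ 2 ∣ n + h)
    (f : ℕ → ℝ) : ∏ p ∈ (oddT (MM H n)).filter (fun p => InS s N p), f p =
      ∏ h ∈ H, ∏ p ∈ (DS s N).filter (fun p => p ∣ n + h), f p := by
  have h1 : (oddT (MM H n)).filter (fun p => InS s N p) =
      H.biUnion (fun h => (DS s N).filter (fun p => p ∣ n + h)) := by
    ext p
    rw [Finset.mem_biUnion]
    exact mem_win_s hH hn hz hsq p
  rw [h1, Finset.prod_biUnion]
  intro h hh h' hh' hne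
  rw [Function.onFun, Finset.disjoint_left]
  intro p hp hp'
  rw [Finset.mem_filter, DS, Finset.mem_filter] at hp hp'
  exact hne (shift_unique (hH h hh) (hH h' hh') hp.1.2.2.1 hp.2 hp'.2)

end Pool.Agent.Lib.P4a7640Z
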