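import Mathlib
import Pool.Agent.Lib.P4a7640Z.Par
import Pool.Agent.Lib.P4a7640Y.WinMass

/-!
# The mass of the primes in the window (rate form)
-/

open Filter Topology

namespace Pool.Agent.Lib.P4a7640Z

open Pool.Agent.Lib.P4a7640 Pool.Agent.Lib.P4a7640M Pool.Agent.Lib.P4a7640Y
open Pool.Agent.Lib.P4a7640Y.WinMassAux

lemma mem_DS' {s : ℕ → ℝ} {N p : ℕ} : p ∈ DS s N ↔ (1 ≤ p ∧ p ≤ N) ∧ p.Prime ∧ Real.log N < p ∧
    (p : ℝ) ≤ zs s N := by
  classical
  unfold DS
  rw [Finset.mem_filter, Finset.mem_Icc]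
  rfl

/-- module WinS -/
theorem mass_le {δ : ℕ → ℝ} (h1 : ∀ p, δ p ≤ 1) : ∃ C : ℝ, ∀ N : ℕ, 3 ≤ N → mass δ N ≤ lam N + C := by
  refine ⟨6, fun N hN => ?_⟩
  have h3 := sum_inv_primes_le N hN
  have h4 : mass δ N ≤ ∑ p ∈ Nat.primesLE N, 1 / (p : ℝ) := by
    unfold mass
    calc ∑ p ∈ (Finset.Icc 1 N).filter Nat.Prime, δ p / p
        ≤ ∑ p ∈ (Finset.Icc 1 N).filter Nat.Prime, (1:ℝ) / p := by
          refine Finset.sum_le_sum fun p _ => ?_
          gcongr
          exact h1 p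
      _ ≤ _ := by
          apply Finset.sum_le_sum_of_subset_of_nonneg
          · intro p hp
            rw [Finset.mem_filter, Finset.mem_Icc] at hp
            rw [Nat.mem_primesLE]
            exact ⟨hp.1.2, hp.2⟩
          · intro p _ _; positivity
  have h5 : Real.log (Real.log N) = lam N := rfl
  linarith

/-- module WinS -/
theorem win_s_le : ∀ᶠ N : ℕ in atTop, ∀ s : ℕ → ℝ, ∑ p ∈ DS s N, (1:ℝ) / p ≤ 2 * lam N := by
  filter_upwards [tendsto_lam'.eventually_ge_atTop 6, eventually_ge_atTop 3] with N h1 h2 s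
  have h3 := sum_inv_primes_le N h2
  have h4 : ∑ p ∈ DS s N, (1:ℝ) / p ≤ ∑ p ∈ Nat.primesLE N, 1 / (p : ℝ) := by
    apply Finset.sum_le_sum_of_subset_of_nonneg
    · intro p hp
      rw [mem_DS'] at hp
      rw [Nat.mem_primesLE]
      exact ⟨hp.1.2, hp.2.1⟩
    · intro p _ _; positivity
  have h5 : Real.log (Real.log N) = lam N := rfl
  linarith

/-- module WinS (`log λ ≤ s / 2`, `∑_{p ≤ log N} 1/p ≤ log λ + C`, `∑_{zs < p ≤ N} 1/p ≤ 3 s + C`,
`s = c √M ≤ M / 16`, so the window mass is at least `M / 2 = s^2 / (2 c^2)`) -/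
theorem win_s {δ : ℕ → ℝ} (h0 : ∀ p, 0 ≤ δ p) (h1 : ∀ p, δ p ≤ 1)
    (hP : Tendsto (fun N : ℕ => mass δ N / Real.log (lam N) ^ 2) atTop atTop) (K : ℝ) :
    ∃ c₀ : ℝ, 0 < c₀ ∧ ∀ c : ℝ, 0 < c → c ≤ c₀ → ∀ᶠ N : ℕ in atTop,
      K * (c * Real.sqrt (mass δ N)) ^ 2 ≤
        ∑ p ∈ DS (fun N => c * Real.sqrt (mass δ N)) N, δ p / p := by
  classical
  obtain ⟨C, hC0, hC⟩ := P4a7640L.mertens_upper
  set K' : ℝ := |K| + 1 with hK'
  have hK'0 : 0 < K' := by positivity
  refine ⟨min 1 (1 / (2 * K')), by positivity, fun c hc hcc => ?_⟩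
  have hc1 : c ≤ 1 := hcc.trans (min_le_left _ _)
  have hc2 : c ≤ 1 / (2 * K') := hcc.trans (min_le_right _ _)
  have hKc : K * c ^ 2 ≤ 1 / 2 := by
    have e1 : c * (2 * K') ≤ 1 := by rwa [le_div_iff₀ (by positivity)] at hc2
    have e2 : K ≤ K' := by rw [hK']; linarith [le_abs_self K]
    have e3 : c ^ 2 ≤ c := by nlinarith
    calc K * c ^ 2 ≤ K' * c ^ 2 := by gcongr
      _ ≤ K' * c := by gcongr
      _ ≤ 1 / 2 := by linarith
  filter_upwards [hP.eventually_ge_atTop (100 * (C + 10) ^ 2), tendsto_loglam'.eventually_ge_atTop 1,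
    tendsto_log'.eventually_ge_atTop 3, eventually_ge_atTop 3, tendsto_lam'.eventually_ge_atTop 100]
    with N g1 g2 g3 g4 g5
  set M := mass δ N with hM
  set L := Real.log (lam N) with hL
  have hl : 0 < Real.log N := by linarith
  have hlam : 0 < lam N := by linarith
  have hL2 : 0 < L ^ 2 := by positivity
  rw [le_div_iff₀ hL2] at g1
  have hMle : M ≤ lam N + 6 := by
    have h3 := sum_inv_primes_le N g4
    have h4 : M ≤ ∑ p ∈ Nat.primesLE N, 1 / (p : ℝ) := by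
      rw [hM]
      unfold mass
      calc ∑ p ∈ (Finset.Icc 1 N).filter Nat.Prime, δ p / p
          ≤ ∑ p ∈ (Finset.Icc 1 N).filter Nat.Prime, (1:ℝ) / p := by
            refine Finset.sum_le_sum fun p _ => ?_
            gcongr
            exact h1 p
        _ ≤ _ := by
            apply Finset.sum_le_sum_of_subset_of_nonneg
            · intro p hp
              rw [Finset.mem_filter, Finset.mem_Icc] at hp
              rw [Nat.mem_primesLE]
              exact ⟨hp.1.2, hp.2⟩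
            · intro p _ _; positivity
    have h5 : Real.log (Real.log N) = lam N := rfl
    linarith
  set R := Real.sqrt M with hR
  have hM0 : 0 ≤ M := by
    have : 0 ≤ 100 * (C + 10) ^ 2 * L ^ 2 := by positivity
    linarith
  have hR2 : R ^ 2 = M := Real.sq_sqrt hM0
  have hR0 : 0 ≤ R := Real.sqrt_nonneg _
  -- `R ≥ 10 (C + 10) L`
  have hRL : 10 * (C + 10) * L ≤ R := by
    apply Real.le_sqrt_of_sq_le
    calc (10 * (C + 10) * L) ^ 2 = 100 * (C + 10) ^ 2 * L ^ 2 := by ring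
      _ ≤ M := g1
  have hR10 : 10 * (C + 10) ≤ R := by nlinarith
  have hR100 : 100 ≤ R := by nlinarith
  -- the parameter
  set t : ℝ := c * R with ht
  have ht0 : 0 ≤ t := by positivity
  have htR : t ≤ R := by nlinarith
  have ht3 : 3 * t ≤ lam N := by
    have : 3 * R ≤ R ^ 2 - 6 := by nlinarith
    linarith
  set α := lam N - 3 * t with hα
  have hα0 : 0 ≤ α := by linarith
  have hαle : α ≤ lam N := by linarith
  have hδ : ∀ p : ℕ, 0 ≤ δ p / p := fun p => div_nonneg (h0 p) (Nat.cast_nonneg p)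
  set D := DS (fun N => c * Real.sqrt (mass δ N)) N with hD
  set S := (Finset.Icc 1 N).filter Nat.Prime with hS
  set S1 := S.filter (fun p : ℕ => (p:ℝ) ≤ Real.log N) with hS1
  set S2 := S.filter (fun p : ℕ => zs (fun N => c * Real.sqrt (mass δ N)) N < (p:ℝ)) with hS2
  have hsub : S ⊆ D ∪ (S1 ∪ S2) := by
    intro p hp
    have hp' := hp
    rw [hS, Finset.mem_filter] at hp'
    rw [Finset.mem_union, Finset.mem_union, hD, mem_DS']
    by_cases ha : (p:ℝ) ≤ Real.log N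
    · exact Or.inr (Or.inl (Finset.mem_filter.2 ⟨hp, ha⟩))
    · by_cases hb : zs (fun N => c * Real.sqrt (mass δ N)) N < (p:ℝ)
      · exact Or.inr (Or.inr (Finset.mem_filter.2 ⟨hp, hb⟩))
      · exact Or.inl ⟨Finset.mem_Icc.1 hp'.1, hp'.2, not_le.1 ha, not_lt.1 hb⟩
  have e1 : M ≤ ∑ p ∈ D, δ p / p + (∑ p ∈ S1, (1:ℝ) / p + ∑ p ∈ S2, (1:ℝ) / p) := by
    calc M = ∑ p ∈ S, δ p / p := rfl
      _ ≤ ∑ p ∈ D ∪ (S1 ∪ S2), δ p / p :=
          Finset.sum_le_sum_of_subset_of_nonneg hsub (fun p _ _ => hδ p)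
      _ ≤ ∑ p ∈ D, δ p / p + ∑ p ∈ S1 ∪ S2, δ p / p :=
          sum_union_le' _ _ _ hδ
      _ ≤ ∑ p ∈ D, δ p / p + (∑ p ∈ S1, δ p / p + ∑ p ∈ S2, δ p / p) := by
          gcongr
          exact sum_union_le' _ _ _ hδ
      _ ≤ _ := by
          gcongr with p _ p _
          · exact h1 p
          · exact h1 p
  have e2 : ∑ p ∈ S1, (1:ℝ) / p ≤ L + 6 := by
    apply small_mass g3
    intro p hp
    rw [hS1, Finset.mem_filter, hS, Finset.mem_filter] at hp
    exact ⟨hp.1.2, hp.2⟩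
  have e3 : ∑ p ∈ S2, (1:ℝ) / p ≤ (lam N - α) + C * Real.exp (-α) := by
    apply hC α (lam N) hα0 hαle
    intro p hp
    rw [hS2, Finset.mem_filter, hS, Finset.mem_filter, Finset.mem_Icc] at hp
    obtain ⟨⟨⟨hp1, hpN⟩, hpp⟩, hpz⟩ := hp
    have hp0 : (0:ℝ) < p := by exact_mod_cast hp1
    have hlp : Real.log N * Real.exp (-(3 * t)) < Real.log p := by
      rw [Real.lt_log_iff_exp_lt hp0]; exact hpz
    have hq0 : 0 < Real.log N * Real.exp (-(3 * t)) := by positivity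
    have hqa : Real.log (Real.log N * Real.exp (-(3 * t))) = α := by
      rw [Real.log_mul hl.ne' (Real.exp_pos _).ne', Real.log_exp, hα]
      rfl
    refine ⟨hpp, ?_, ?_⟩
    · rw [← hqa]
      exact Real.log_le_log hq0 hlp.le
    · have : Real.log p ≤ Real.log N := Real.log_le_log hp0 (by exact_mod_cast hpN)
      exact Real.log_le_log (by linarith) this
  have e4 : Real.exp (-α) ≤ 1 := by
    rw [Real.exp_le_one_iff]; linarith
  have e6 : C * Real.exp (-α) ≤ C := by nlinarith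
  have e7 : M - (L + 6) - 3 * R - C ≤ ∑ p ∈ D, δ p / p := by
    have : lam N - α = 3 * t := by rw [hα]; ring
    linarith
  have e8 : L ≤ R / 10 := by nlinarith
  have e9 : C ≤ R / 10 := by linarith
  have e10 : M / 2 ≤ M - (L + 6) - 3 * R - C := by
    have : 100 * R ≤ M := by rw [← hR2]; nlinarith
    linarith
  have e11 : K * (c * R) ^ 2 ≤ M / 2 := by
    calc K * (c * R) ^ 2 = (K * c ^ 2) * R ^ 2 := by ring
      _ ≤ 1 / 2 * R ^ 2 := by gcongr
      _ = M / 2 := by rw [hR2]; ring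
  linarith

end Pool.Agent.Lib.P4a7640Z
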