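import Mathlib
import Pool.Agent.Lib.P4a7640Y.Moment
import Pool.Agent.Lib.P4a7640Z.SecS
import Pool.Agent.Lib.P4a7640Z.BrunS
import Pool.Agent.Lib.P4a7640Z.HeadS
import Pool.Agent.Lib.P4a7640Z.SqS
import Pool.Agent.Lib.P4a7640Z.TailS
import Pool.Agent.Lib.P4a7640Z.WinPartS
import Pool.Agent.Lib.P4a7640Z.WinS
import Pool.Agent.Lib.P4a7640Z.AsymS

/-!
# The second moment bound with a rate
-/

open MeasureTheory Filter Finset Topology

namespace Pool.Agent.Lib.P4a7640Z

open Pool.Agent.Lib.P4a7640 Pool.Agent.Lib.P4a7640M Pool.Agent.Lib.P4a7640Y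

theorem moment_s {k : ℕ} {a : ℕ → ℕ} {A : ℕ → Set ℝ} (ha : ∀ p : ℕ, p.Prime → 0 < a p)
    (hk : ∀ (n : ℕ) (s : Finset ℕ), (∀ p ∈ s, p.Prime ∧ a p = n) → s.card ≤ k)
    (hA : ∀ p, KInt k (A p))
    (hM : Tendsto (fun N : ℕ => mass (fun p => dl (A p)) N / Real.log (lam N) ^ 2) atTop atTop)
    {H : Finset ℕ} (hH : H.Nonempty) :
    ∃ c : ℝ, 0 < c ∧ ∃ B : ℝ, 0 < B ∧ ∀ᶠ N : ℕ in atTop, ∀ w : ℕ → ℝ, (∀ n, |w n| ≤ 1) → ∀ u : ℝ,
      ∫ α in u..(u + 1), FF w H N (xg A a α) ^ 2 ≤
        B * Real.exp (-(4 * c * Real.sqrt (mass (fun p => dl (A p)) N))) := by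
  classical
  set δ : ℕ → ℝ := fun p => dl (A p) with hδ
  have hδ0 : ∀ p, 0 ≤ δ p := fun p => dl_nonneg _
  have hδ1 : ∀ p, δ p ≤ 1 := fun p => dl_le_one _
  obtain ⟨K, hK, C1, hC1, htail⟩ := tail_s H
  obtain ⟨C2, hC2, hev2⟩ := sq_s H
  obtain ⟨C3, hC3, hhead3⟩ := head_s
  obtain ⟨ck, hck, hkap⟩ := kap_kint k
  set C : ℝ := 4 * k + 4 with hCdef
  have hC : 0 < C := by positivity
  obtain ⟨K₁, hK₁, K₂, hK₂, hasym⟩ := asym_s (K := K) (C := 6 * C) (k := k) hK (by positivity)
    (Nat.cast_nonneg k)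
  obtain ⟨c₀, hc₀, hwin⟩ := win_s hδ0 hδ1 hM (K₁ / ck)
  obtain ⟨Cm, hCm⟩ := mass_le hδ1
  set c : ℝ := min c₀ (min 1 (1 / (2 * K₂))) with hcdef
  have hc : 0 < c := lt_min hc₀ (lt_min one_pos (by positivity))
  have hcc₀ : c ≤ c₀ := min_le_left _ _
  have hc1 : c ≤ 1 := (min_le_right _ _).trans (min_le_left _ _)
  have hcK : c ≤ 1 / (2 * K₂) := (min_le_right _ _).trans (min_le_right _ _)
  set s : ℕ → ℝ := fun N => c * Real.sqrt (mass δ N) with hs_def
  have hlamT : Tendsto lam atTop atTop := Real.tendsto_log_atTop.comp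
    (Real.tendsto_log_atTop.comp tendsto_natCast_atTop_atTop)
  have hlogT : Tendsto (fun N : ℕ => Real.log (N:ℝ)) atTop atTop :=
    Real.tendsto_log_atTop.comp tendsto_natCast_atTop_atTop
  have hmass0 : ∀ N, 0 ≤ mass δ N := fun N => Finset.sum_nonneg fun p _ =>
    div_nonneg (hδ0 p) (Nat.cast_nonneg p)
  have hs1 : ∀ᶠ N : ℕ in atTop, 2 * Real.log (lam N) ≤ s N := by
    filter_upwards [hM.eventually_ge_atTop ((2 / c) ^ 2), hlamT.eventually_ge_atTop 3] with N hN hN3
    have hll : 0 < Real.log (lam N) := Real.log_pos (by linarith)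
    rw [le_div_iff₀ (by positivity)] at hN
    have h1 : 2 / c * Real.log (lam N) ≤ Real.sqrt (mass δ N) := by
      apply Real.le_sqrt_of_sq_le
      rw [mul_pow]
      exact hN
    have h2 := mul_le_mul_of_nonneg_left h1 hc.le
    calc 2 * Real.log (lam N) = c * (2 / c * Real.log (lam N)) := by field_simp
      _ ≤ _ := h2
  have hmass2 : ∀ᶠ N : ℕ in atTop, mass δ N ≤ 2 * lam N := by
    filter_upwards [hlamT.eventually_ge_atTop Cm, eventually_ge_atTop 3] with N hN hN3
    have := hCm N hN3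
    linarith
  have hs2 : ∀ᶠ N : ℕ in atTop, 16 * s N ≤ lam N := by
    filter_upwards [hmass2, hlamT.eventually_ge_atTop 512] with N h1 h2
    have h3 : s N ≤ Real.sqrt (2 * lam N) := by
      show c * Real.sqrt (mass δ N) ≤ _
      calc c * Real.sqrt (mass δ N) ≤ 1 * Real.sqrt (mass δ N) :=
            mul_le_mul_of_nonneg_right hc1 (Real.sqrt_nonneg _)
        _ ≤ Real.sqrt (2 * lam N) := by
            rw [one_mul]
            exact Real.sqrt_le_sqrt h1
    have h4 : Real.sqrt (2 * lam N) ≤ lam N / 16 := by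
      rw [Real.sqrt_le_left (by linarith)]
      nlinarith
    linarith
  have hs3 : ∀ᶠ N : ℕ in atTop, K₂ * s N ^ 2 ≤ lam N := by
    filter_upwards [hmass2] with N h1
    have h2 : s N ^ 2 = c ^ 2 * mass δ N := by
      show (c * Real.sqrt (mass δ N)) ^ 2 = _
      rw [mul_pow, Real.sq_sqrt (hmass0 N)]
    rw [h2]
    have h3 : c ^ 2 ≤ 1 / (2 * K₂) := by nlinarith
    have h4 : K₂ * c ^ 2 ≤ 1 / 2 := by
      calc K₂ * c ^ 2 ≤ K₂ * (1 / (2 * K₂)) := mul_le_mul_of_nonneg_left h3 hK₂.le
        _ = 1 / 2 := by field_simp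
    calc K₂ * (c ^ 2 * mass δ N) = (K₂ * c ^ 2) * mass δ N := by ring
      _ ≤ 1 / 2 * mass δ N := mul_le_mul_of_nonneg_right h4 (hmass0 N)
      _ ≤ lam N := by linarith
  set φ : ℕ → UnitAddCircle → ℝ := fun p => phiC (A p) with hφdef
  have hφ : ∀ p, Measurable (φ p) := fun p => measurable_phiC (hA p).measurableSet
  have hs : ∀ p x, |φ p x| = 1 := fun p x => abs_phiC _ x
  have hb : ∀ p x, |φ p x| ≤ 1 := fun p x => (hs p x).le
  have hL : ∀ p, LL1 C (φ p) := fun p => lip_kint (hA p)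
  refine ⟨c, hc, 2 * C3 ^ 2 + 2 * (2 * (C1 + C2) + (2 * K * C + 1) + 1), by positivity, ?_⟩
  filter_upwards [htail s hs1 hs2, hev2, hhead3 s hs2, hasym s hs1 hs3, hwin c hc hcc₀, win_s_le,
    brun_s H hs1 hs2, hs1, hs2, hlamT.eventually_ge_atTop 3,
    hlogT.eventually_ge_atTop ((H.sup id : ℕ) : ℝ), eventually_ge_atTop 3]
    with N h1 h2 h3 h4 h5 h6 h7 hsN1 hsN2 h9 h10 hN w hw u
  have h6 := h6 s
  have hlog : 1 ≤ Real.log N := P4a7640L.Brun.log_ge_one hN
  have hl : 0 < Real.log N := by linarith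
  have hlam0 : 0 < lam N := by linarith
  have hloglam : 0 < Real.log (lam N) := Real.log_pos (by linarith)
  have hsN : 0 < s N := by linarith
  have hexps : s N ≤ Real.exp (s N) := by
    have := Real.add_one_le_exp (s N)
    linarith
  have h8 : zs s N ≤ N := by
    have hN0 : (0:ℝ) < N := by exact_mod_cast (show 0 < N by omega)
    unfold zs
    calc Real.exp (Real.log N * Real.exp (-(3 * s N))) ≤ Real.exp (Real.log N) := by
          apply Real.exp_le_exp.mpr
          refine mul_le_of_le_one_right hl.le ?_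
          rw [Real.exp_le_one_iff]
          linarith
      _ = N := Real.exp_log hN0
  have hM1 : 1 ≤ MS s N := by
    unfold MS
    exact Nat.one_le_ceil_iff.mpr (Real.exp_pos _)
  have hMN : MS s N ≤ N := by
    unfold MS
    rw [Nat.ceil_le]
    have hN0 : (0:ℝ) < N := by exact_mod_cast (show 0 < N by omega)
    calc Real.exp (Real.log N * Real.exp (-(2 * s N))) ≤ Real.exp (Real.log N) := by
          apply Real.exp_le_exp.mpr
          refine mul_le_of_le_one_right hl.le ?_
          rw [Real.exp_le_one_iff]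
          linarith
      _ = N := Real.exp_log hN0
  -- the coefficients
  set cf : ℕ → ℝ := fun n => w n / n / Real.log N with hcf
  have hcfb : ∀ n, |cf n| ≤ 1 / n / Real.log N := by
    intro n
    rw [hcf]
    show |w n / n / Real.log N| ≤ _
    rw [abs_div, abs_div, abs_of_pos hl, abs_of_nonneg (Nat.cast_nonneg (α := ℝ) n)]
    exact div_le_div_of_nonneg_right (div_le_div_of_nonneg_right (hw n) (Nat.cast_nonneg n)) hl.le
  rw [FF_xg]
  -- splitting of the sum
  have hsplit : ∀ x, FT φ a H (Finset.Icc 1 N) cf x =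
      FT φ a H (Finset.Icc 1 (MS s N)) cf x + FT φ a H (Ioc (MS s N) N) cf x := by
    intro x
    unfold FT
    rw [← Finset.sum_union]
    · congr 1
      ext n
      simp only [Finset.mem_Icc, Finset.mem_union, Finset.mem_Ioc]
      omega
    · rw [Finset.disjoint_left]
      intro n hn hn'
      simp only [Finset.mem_Icc, Finset.mem_Ioc] at hn hn'
      omega
  have hhead : ∀ x, |FT φ a H (Finset.Icc 1 (MS s N)) cf x| ≤ C3 * Real.exp (-(2 * s N)) := by
    intro x
    refine (abs_FT_le hb H _ (fun n _ => hcfb n) x).trans (le_trans (le_of_eq ?_) h3)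
    rw [Finset.sum_div]
  have hmain : ∫ x, FT φ a H (Ioc (MS s N) N) cf x ^ 2 ≤
      (2 * (C1 + C2) + (2 * K * C + 1) + 1) * Real.exp (-(4 * s N)) := by
    obtain ⟨bad, hbad⟩ : ∃ bad : ℕ → Prop, ∀ n, bad n ↔ ((K * s N <
      ((oddT (MM H n)).filter (fun p => ¬ InS s N p)).card) ∨
      (∃ h ∈ H, ∃ p : ℕ, p.Prime ∧ Real.log N < p ∧ p ^ 2 ∣ n + h)) := ⟨_, fun _ => Iff.rfl⟩
    have hHlog : ∀ h ∈ H, (h:ℝ) ≤ Real.log N := by
      intro h hh
      refine le_trans ?_ h10
      exact_mod_cast Finset.le_sup (f := id) hh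
    have hQ : 0 < QS s N := by
      unfold QS
      exact Nat.ceil_pos.mpr (Real.exp_pos _)
    have hQ' : Real.exp (5 * s N) ≤ QS s N := Nat.le_ceil _
    have hη : 0 < Real.exp (-(4 * s N)) := Real.exp_pos _
    have hYM : K₁ * s N ^ 2 ≤ YM φ (DS s N) := by
      have e1 : K₁ * s N ^ 2 = ck * (K₁ / ck * s N ^ 2) := by
        field_simp
      rw [e1]
      refine (mul_le_mul_of_nonneg_left h5 hck.le).trans ?_
      unfold YM
      rw [Finset.mul_sum]
      refine Finset.sum_le_sum fun p _ => ?_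
      rw [← mul_div_assoc]
      exact div_le_div_of_nonneg_right (hkap _ (hA p)) (Nat.cast_nonneg p)
    have hYM0 : 0 < YM φ (DS s N) := lt_of_lt_of_le (by positivity) hYM
    have hDA : ∀ p ∈ DS s N, InS s N p := by
      intro p hp
      unfold DS at hp
      exact (Finset.mem_filter.mp hp).2
    have hvb := v_bound (φ := φ) (a := a) (D := DS s N) hφ hs hH hM1 hN (Real.exp_pos (-lam N)).le
      (fun Q hQ => h7 Q fun p hp => hDA p (hQ hp)) hYM0
    set V := ∑ n ∈ Ioc (MS s N) N, ∑ n' ∈ Ioc (MS s N) N, ((1:ℝ) / n / Real.log N * (1 / n' / Real.log N)) *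
      ∫ h, AC (fun x => WW φ a H (DS s N) n x * WW φ a H (DS s N) n' x) h ^ 2 with hV
    have hvar : ∫ τ, (YY φ a (DS s N) τ - YM φ (DS s N)) ^ 2 ∂P3 ≤
        6 * C * (2 * lam N) * (k * (RN N : ℝ) ^ 2 / Real.log N + 2 * lam N / RN N) := by
      have hR : 0 < RN N := by
        unfold RN
        exact Nat.ceil_pos.mpr (Real.exp_pos _)
      have hR0 : (0:ℝ) < RN N := by exact_mod_cast hR
      refine (var_le hφ hb hL (fun p hp => (ha p (hDA p hp).1).ne')).trans ?_
      have hps : ∀ p ∈ DS s N, ∑ q ∈ DS s N, (1:ℝ) / q * (1 / mx (a p) (a q)) ≤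
          k * (RN N : ℝ) ^ 2 / Real.log N + 2 * lam N / RN N := by
        intro p hp
        refine (pair_sum (fun q hq => (ha q (hDA q hq).1).ne') (k := k) (fun n => ?_) hl
          (fun q hq => (hDA q hq).2.1) hR hp).trans ?_
        · refine hk n _ fun q hq => ?_
          rw [Finset.mem_filter] at hq
          exact ⟨(hDA q hq.1).1, hq.2⟩
        · exact add_le_add le_rfl (div_le_div_of_nonneg_right h6 hR0.le)
      have hX0 : 0 ≤ (k:ℝ) * (RN N : ℝ) ^ 2 / Real.log N + 2 * lam N / RN N := by positivity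
      calc ∑ p ∈ DS s N, (1:ℝ) / p * (6 * C * ∑ q ∈ DS s N, (1:ℝ) / q * (1 / mx (a p) (a q)))
          ≤ ∑ p ∈ DS s N, (1:ℝ) / p * (6 * C * (k * (RN N : ℝ) ^ 2 / Real.log N + 2 * lam N / RN N)) := by
            refine Finset.sum_le_sum fun p hp => ?_
            exact mul_le_mul_of_nonneg_left (mul_le_mul_of_nonneg_left (hps p hp) (by positivity))
              (by positivity)
        _ = (∑ p ∈ DS s N, (1:ℝ) / p) *
            (6 * C * (k * (RN N : ℝ) ^ 2 / Real.log N + 2 * lam N / RN N)) := by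
            rw [Finset.sum_mul]
        _ ≤ (2 * lam N) * (6 * C * (k * (RN N : ℝ) ^ 2 / Real.log N + 2 * lam N / RN N)) :=
            mul_le_mul_of_nonneg_right h6 (by positivity)
        _ = _ := by ring
    have hVle : V ≤ (Real.exp (-YM φ (DS s N) / 2) + Real.exp (-lam N)) ^ 2 +
        4 * (6 * C * (2 * lam N) * (k * (RN N : ℝ) ^ 2 / Real.log N + 2 * lam N / RN N)) /
          YM φ (DS s N) ^ 2 := by
      refine hvb.trans (add_le_add le_rfl ?_)
      refine div_le_div_of_nonneg_right ?_ (by positivity)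
      linarith
    set j : ℕ := ⌊2 * K * s N⌋₊ with hj
    have hjle : (j:ℝ) ≤ 2 * K * s N := Nat.floor_le (by positivity)
    have hfin := h4 (YM φ (DS s N)) V hYM hVle j hjle
    have hsm := sec_mom_g (fun p => InS s N p) (DS s N) (φ := φ) (a := a) (H := H) (M := MS s N) (N := N) (bad := bad)
      (K₀ := K * s N) (c := cf) (Q := QS s N) (j := j) (η := Real.exp (-(4 * s N)))
      hφ hb hL (fun p hp => (ha p hp).ne') hM1 hN (by positivity) ?_ ?_ hcfb hQ ?_ hη
    · refine hsm.trans ?_
      have hbadm : (∑ n ∈ (Ioc (MS s N) N).filter bad, (1:ℝ) / n) / Real.log N ≤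
          (C1 + C2) * Real.exp (-(4 * s N)) := by
        have e0 : Real.exp (-lam N) ≤ Real.exp (-(4 * s N)) := Real.exp_le_exp.mpr (by linarith)
        have e1 : ∑ n ∈ (Ioc (MS s N) N).filter bad, (1:ℝ) / n ≤
            ∑ n ∈ (Finset.Icc 1 N).filter (fun n => K * s N <
              ((oddT (MM H n)).filter (fun p => ¬ InS s N p)).card), (1:ℝ) / n +
            ∑ n ∈ (Finset.Icc 1 N).filter (fun n => ∃ h ∈ H, ∃ p : ℕ, p.Prime ∧ Real.log N < p ∧
              p ^ 2 ∣ n + h), (1:ℝ) / n := by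
          rw [Finset.sum_filter, Finset.sum_filter, Finset.sum_filter, ← Finset.sum_add_distrib]
          have hsub : Ioc (MS s N) N ⊆ Finset.Icc 1 N := by
            intro n hn
            rw [Finset.mem_Ioc] at hn
            rw [Finset.mem_Icc]
            omega
          refine (Finset.sum_le_sum_of_subset_of_nonneg hsub fun n _ _ => ?_).trans
            (Finset.sum_le_sum fun n _ => ?_)
          · split_ifs
            · positivity
            · exact le_rfl
          · have hn0 : (0:ℝ) ≤ 1 / n := by positivity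
            by_cases hb1 : K * s N < ((oddT (MM H n)).filter (fun p => ¬ InS s N p)).card
            · have hbn : bad n := (hbad n).mpr (Or.inl hb1)
              rw [if_pos hbn, if_pos hb1]
              split_ifs
              · linarith
              · linarith
            · by_cases hb2 : ∃ h ∈ H, ∃ p : ℕ, p.Prime ∧ Real.log N < p ∧ p ^ 2 ∣ n + h
              · have hbn : bad n := (hbad n).mpr (Or.inr hb2)
                rw [if_pos hbn, if_neg hb1, if_pos hb2]
                linarith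
              · have hbn : ¬ bad n := fun h => ((hbad n).mp h).elim hb1 hb2
                rw [if_neg hbn, if_neg hb1, if_neg hb2]
                linarith
        calc (∑ n ∈ (Ioc (MS s N) N).filter bad, (1:ℝ) / n) / Real.log N
            ≤ (_ + _) / Real.log N := div_le_div_of_nonneg_right e1 hl.le
          _ = _ / Real.log N + _ / Real.log N := add_div _ _ _
          _ ≤ C1 * Real.exp (-(4 * s N)) + C2 * Real.exp (-lam N) := add_le_add h1 h2
          _ ≤ C1 * Real.exp (-(4 * s N)) + C2 * Real.exp (-(4 * s N)) :=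
              add_le_add le_rfl (mul_le_mul_of_nonneg_left e0 hC2.le)
          _ = (C1 + C2) * Real.exp (-(4 * s N)) := by ring
      have hKC : 2 * (K * s N) * (C / (QS s N : ℝ)) ≤ 2 * K * C * Real.exp (-(4 * s N)) := by
        have hQ0 : (0:ℝ) < QS s N := by exact_mod_cast hQ
        rw [← mul_div_assoc, div_le_iff₀ hQ0]
        have e2 : s N ≤ Real.exp (-(4 * s N)) * QS s N := by
          calc s N ≤ Real.exp (s N) := hexps
            _ = Real.exp (-(4 * s N)) * Real.exp (5 * s N) := by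
                rw [← Real.exp_add]
                congr 1
                ring
            _ ≤ _ := mul_le_mul_of_nonneg_left hQ' (Real.exp_pos _).le
        have e3 := mul_le_mul_of_nonneg_left e2 (show 0 ≤ 2 * K * C by positivity)
        calc 2 * (K * s N) * C = 2 * K * C * s N := by ring
          _ ≤ _ := e3
          _ = _ := by ring
      have hQV : (QS s N : ℝ) ^ (2 * j) / Real.exp (-(4 * s N)) ^ 3 * V ≤ Real.exp (-(4 * s N)) := by
        refine le_trans (le_of_eq ?_) hfin
        have e5 : Real.exp (-(4 * s N)) ^ 3 = (Real.exp (12 * s N))⁻¹ := by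
          rw [← Real.exp_nat_mul, ← Real.exp_neg]
          congr 1
          push_cast
          ring
        rw [e5, div_inv_eq_mul]
        ring
      have e4 : (2 * (C1 + C2) + (2 * K * C + 1) + 1) * Real.exp (-(4 * s N)) =
          2 * ((C1 + C2) * Real.exp (-(4 * s N))) + (2 * K * C * Real.exp (-(4 * s N)) +
            Real.exp (-(4 * s N))) + Real.exp (-(4 * s N)) := by
        ring
      rw [e4]
      refine add_le_add (add_le_add ?_ (add_le_add hKC le_rfl)) hQV
      exact mul_le_mul_of_nonneg_left hbadm zero_le_two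
    · intro n _ hbn
      by_contra hcon
      exact hbn ((hbad n).mpr (Or.inl (not_le.mp hcon)))
    · intro n hn hbn f
      rw [Finset.mem_Ioc] at hn
      exact win_part_s hHlog (by omega) h8 (fun h => hbn ((hbad n).mpr (Or.inr h))) f
    · intro m hm
      rw [hj]
      apply Nat.le_floor
      linarith
  -- conclusion
  have hFm : ∀ S, Measurable (FT φ a H S cf) := fun S => measurable_FT hφ H S cf
  have hFb : ∀ S x, |FT φ a H S cf x| ≤ ∑ n ∈ S, 1 / n / Real.log N := fun S x =>
    abs_FT_le hb H S (fun n _ => hcfb n) x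
  have hi : ∀ S, Integrable (fun x => FT φ a H S cf x ^ 2) volume := fun S => by
    refine int_bdd (f := fun x => FT φ a H S cf x ^ 2) ((hFm S).pow_const 2)
      (C := (∑ n ∈ S, 1 / (n:ℝ) / Real.log N) ^ 2) fun x => ?_
    rw [abs_pow]
    exact pow_le_pow_left₀ (abs_nonneg _) (hFb S x) 2
  calc ∫ x, FT φ a H (Finset.Icc 1 N) cf x ^ 2
      ≤ ∫ x, (2 * (C3 * Real.exp (-(2 * s N))) ^ 2 + 2 * FT φ a H (Ioc (MS s N) N) cf x ^ 2) := by
        refine integral_mono (hi _) ((integrable_const _).add ((hi _).const_mul 2)) fun x => ?_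
        show FT φ a H (Finset.Icc 1 N) cf x ^ 2 ≤
          2 * (C3 * Real.exp (-(2 * s N))) ^ 2 + 2 * FT φ a H (Ioc (MS s N) N) cf x ^ 2
        rw [hsplit]
        have e1 : FT φ a H (Finset.Icc 1 (MS s N)) cf x ^ 2 ≤ (C3 * Real.exp (-(2 * s N))) ^ 2 := by
          rw [← sq_abs]
          exact pow_le_pow_left₀ (abs_nonneg _) (hhead x) 2
        nlinarith [sq_nonneg (FT φ a H (Finset.Icc 1 (MS s N)) cf x - FT φ a H (Ioc (MS s N) N) cf x)]
    _ = 2 * (C3 * Real.exp (-(2 * s N))) ^ 2 + 2 * ∫ x, FT φ a H (Ioc (MS s N) N) cf x ^ 2 := by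
        rw [integral_add (integrable_const _) ((hi _).const_mul 2), integral_const]
        simp only [probReal_univ, smul_eq_mul, one_mul]
        rw [integral_const_mul]
    _ ≤ 2 * (C3 * Real.exp (-(2 * s N))) ^ 2 + 2 * ((2 * (C1 + C2) + (2 * K * C + 1) + 1) * Real.exp (-(4 * s N))) :=
        add_le_add le_rfl (mul_le_mul_of_nonneg_left hmain zero_le_two)
    _ = _ := by
        have e6 : Real.exp (-(2 * s N)) ^ 2 = Real.exp (-(4 * s N)) := by
          rw [← Real.exp_nat_mul]
          congr 1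
          push_cast
          ring
        have e7 : 4 * c * Real.sqrt (mass δ N) = 4 * s N := by
          show _ = 4 * (c * Real.sqrt (mass δ N))
          ring
        rw [mul_pow, e6, e7]
        ring

end Pool.Agent.Lib.P4a7640Z
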